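import Mathlib

/-!
# Graphs forced in `C₄`-free graphs with few independent vertices: basic counting
-/

set_option autoImplicit false

namespace Pool.Agent.C4j

open Finset
open scoped Classical

noncomputable section

variable {V : Type}

/-- two different vertices have at most one common neighbour -/
def C4F (G : SimpleGraph V) : Prop :=
  ∀ u v a b, u ≠ v → a ≠ b → G.Adj u a → G.Adj u b → G.Adj v a → G.Adj v b → False

/-- every independent set has fewer than `m` vertices -/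
def Alp (G : SimpleGraph V) (m : ℕ) : Prop := ∀ I : Finset V, G.IsIndepSet (I : Set V) → I.card < m

/-- the neighbours of `v` in `S` -/
def nb (G : SimpleGraph V) (S : Finset V) (v : V) : Finset V := S.filter fun u => G.Adj v u

/-- the vertices `u ≠ z` of `S` which have a common neighbour with `z` -/
def n2 (G : SimpleGraph V) (S : Finset V) (z : V) : Finset V :=
  S.filter fun u => u ≠ z ∧ ∃ w, G.Adj u w ∧ G.Adj w z

theorem mem_nb {G : SimpleGraph V} {S : Finset V} {v u : V} : u ∈ nb G S v ↔ u ∈ S ∧ G.Adj v u := by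
  unfold nb; rw [Finset.mem_filter]

theorem mem_n2 {G : SimpleGraph V} {S : Finset V} {z u : V} :
    u ∈ n2 G S z ↔ u ∈ S ∧ u ≠ z ∧ ∃ w, G.Adj u w ∧ G.Adj w z := by
  unfold n2; rw [Finset.mem_filter]

theorem alp_pos {G : SimpleGraph V} {m : ℕ} (hm : Alp G m) : 1 ≤ m := by
  have h := hm ∅ (by simp)
  rw [Finset.card_empty] at h
  omega

/-- `z` is not adjacent to a common neighbour (outside of `S`) of two vertices of `S` -/
def Thr (G : SimpleGraph V) (S : Finset V) (z : V) : Prop :=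
  ∀ v a b, v ∉ S → a ∈ S → b ∈ S → a ≠ b → G.Adj v a → G.Adj v b → ¬ G.Adj v z

/-- `z` may be added to `S` as a vertex without neighbours in `S` -/
def Fre (G : SimpleGraph V) (S : Finset V) (z : V) : Prop :=
  z ∉ S ∧ (∀ a ∈ S, ¬ G.Adj a z) ∧ Thr G S z

/-- `z` may be added to `S` as a vertex whose only neighbour in `S` is `p` -/
def Lef (G : SimpleGraph V) (S : Finset V) (p z : V) : Prop :=
  z ∉ S ∧ G.Adj p z ∧ (∀ a ∈ S, a ≠ p → ¬ G.Adj a z) ∧ Thr G S z

/-- no vertex outside of `S` has three neighbours in `S` -/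
def Gen (G : SimpleGraph V) (S : Finset V) : Prop :=
  ∀ v a b c, v ∉ S → a ∈ S → b ∈ S → c ∈ S → a ≠ b → a ≠ c → b ≠ c →
    G.Adj v a → G.Adj v b → ¬ G.Adj v c

-- BEGIN mdg
/-- ROW mdg. Strong induction on `S.card`. If every vertex of `S` has `D` neighbours in `S` take `S' = S`, `I = ∅`.
Otherwise some `v ∈ S` has fewer than `D`; apply the induction to `S₁ = S.filter fun u => u ≠ v ∧ ¬ G.Adj v u`
(`S.card ≤ S₁.card + D`, as `S ⊆ S₁ ∪ insert v (nb G S v)`) and take `I = insert v I₁`. -/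
theorem mdg (G : SimpleGraph V) (D : ℕ) (S : Finset V) : ∃ S' ⊆ S, ∃ I ⊆ S,
    G.IsIndepSet (I : Set V) ∧ (∀ v ∈ S', D ≤ (nb G S' v).card) ∧
      S.card ≤ S'.card + D * I.card := by
  induction S using Finset.strongInduction with
  | H S ih =>
    by_cases hS : ∀ v ∈ S, D ≤ (nb G S v).card
    · exact ⟨S, Finset.Subset.refl _, ∅, Finset.empty_subset _, by simp [SimpleGraph.IsIndepSet], hS,
        by simp⟩
    · push Not at hS
      obtain ⟨v, hv, hd⟩ := hS
      obtain ⟨S1, hS1⟩ : ∃ S1, S1 = S.filter fun u => u ≠ v ∧ ¬ G.Adj v u := ⟨_, rfl⟩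
      have hm : ∀ u, u ∈ S1 ↔ u ∈ S ∧ u ≠ v ∧ ¬ G.Adj v u := fun u => by
        rw [hS1, Finset.mem_filter]
      have hss : S1 ⊂ S := by
        refine ⟨fun u hu => ((hm u).1 hu).1, fun h => ?_⟩
        exact ((hm v).1 (h hv)).2.1 rfl
      obtain ⟨S', hS', I, hI, hind, hdeg, hcard⟩ := ih S1 hss
      have hvI : v ∉ I := fun h => ((hm v).1 (hI h)).2.1 rfl
      refine ⟨S', hS'.trans hss.1, insert v I, ?_, ?_, hdeg, ?_⟩
      · intro u hu
        rcases Finset.mem_insert.1 hu with rfl | hu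
        · exact hv
        · exact hss.1 (hI hu)
      · intro x hx y hy hxy
        rw [Finset.mem_coe, Finset.mem_insert] at hx hy
        rcases hx with rfl | hx
        · rcases hy with rfl | hy
          · exact absurd rfl hxy
          · exact ((hm y).1 (hI hy)).2.2
        · rcases hy with rfl | hy
          · exact fun h => ((hm x).1 (hI hx)).2.2 h.symm
          · exact hind (Finset.mem_coe.2 hx) (Finset.mem_coe.2 hy) hxy
      · rw [Finset.card_insert_of_notMem hvI]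
        have h1 : S ⊆ S1 ∪ insert v (nb G S v) := by
          intro u hu
          rw [Finset.mem_union, Finset.mem_insert, mem_nb, hm]
          by_cases h2 : u = v
          · exact Or.inr (Or.inl h2)
          · by_cases h3 : G.Adj v u
            · exact Or.inr (Or.inr ⟨hu, h3⟩)
            · exact Or.inl ⟨hu, h2, h3⟩
        have h2 := (Finset.card_le_card h1).trans (Finset.card_union_le _ _)
        have h3 := Finset.card_insert_le v (nb G S v)
        have h4 : D * (I.card + 1) = D * I.card + D := by ring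
        omega
-- END mdg

-- BEGIN mdu
/-- ROW mdu. From `mdg`: `S.card ≤ S'.card + D * m`. -/
theorem mdu {G : SimpleGraph V} {m : ℕ} (hm : Alp G m) (D : ℕ) (S : Finset V)
    (h : 2 * (D * m) ≤ S.card) :
    ∃ S' ⊆ S, S.card ≤ 2 * S'.card ∧ ∀ v ∈ S', D ≤ (nb G S' v).card := by
  obtain ⟨S', hS', I, -, hind, hdeg, hcard⟩ := mdg G D S
  refine ⟨S', hS', ?_, hdeg⟩
  have h1 : D * I.card ≤ D * m := Nat.mul_le_mul_left D (hm I hind).le
  omega

/-- ROW mdu. `mdg` with `D = 2` for `nb G S v`: a vertex `u` with two neighbours `a ≠ b` in `nb G S v` contradicts `C4F`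
(`u`, `v`, `a`, `b`), so `S' = ∅`. -/
theorem deg {G : SimpleGraph V} {m : ℕ} (hG : C4F G) (hm : Alp G m) (S : Finset V) (v : V) :
    (nb G S v).card < 2 * m := by
  obtain ⟨S', hS', I, -, hind, hdeg, hcard⟩ := mdg G 2 (nb G S v)
  have h0 : S' = ∅ := by
    rw [Finset.eq_empty_iff_forall_notMem]
    intro u hu
    obtain ⟨a, ha, b, hb, hab⟩ := Finset.one_lt_card.1 (lt_of_lt_of_le one_lt_two (hdeg u hu))
    rw [mem_nb] at ha hb
    have h1 := (mem_nb.1 (hS' hu)).2
    exact hG u v a b (fun e => G.loopless.irrefl v (e ▸ h1)) hab ha.2 hb.2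
      (mem_nb.1 (hS' ha.1)).2 (mem_nb.1 (hS' hb.1)).2
  rw [h0, Finset.card_empty] at hcard
  have h2 := hm I hind
  omega

/-- ROW mdu. `mdg` with `D = 2 * m` for `univ`; `S' = ∅` by `deg`. -/
theorem nle [Fintype V] {G : SimpleGraph V} {m : ℕ} (hG : C4F G) (hm : Alp G m) :
    Fintype.card V ≤ 2 * m ^ 2 := by
  obtain ⟨S', -, I, -, hind, hdeg, hcard⟩ := mdg G (2 * m) (univ : Finset V)
  have h0 : S' = ∅ := by
    rw [Finset.eq_empty_iff_forall_notMem]
    intro u hu
    exact absurd (deg hG hm S' u) (not_lt.2 (hdeg u hu))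
  rw [h0, Finset.card_empty, Finset.card_univ] at hcard
  have h2 : 2 * m * I.card ≤ 2 * m * m := Nat.mul_le_mul_left _ (hm I hind).le
  have h3 : 2 * m * m = 2 * m ^ 2 := by ring
  omega
-- END mdu

-- BEGIN n2c
/-- ROW n2c. Count the pairs `(w, u)`, `w ∈ nb G S z`, `u ∈ (nb G S w).erase z` (`Finset.card_sigma` or `card_biUnion`):
`w` is determined by `u` by `C4F`, so they inject into `n2 G S z`. -/
theorem n2c {G : SimpleGraph V} (hG : C4F G) {S : Finset V} {D : ℕ}
    (hS : ∀ v ∈ S, D ≤ (nb G S v).card) {z : V} (hz : z ∈ S) :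
    D * (D - 1) ≤ (n2 G S z).card := by
  have h1 : D * (D - 1) ≤ ∑ w ∈ nb G S z, ((nb G S w).erase z).card := by
    calc D * (D - 1) ≤ (nb G S z).card * (D - 1) := Nat.mul_le_mul_right _ (hS z hz)
      _ = ∑ _w ∈ nb G S z, (D - 1) := by rw [Finset.sum_const, smul_eq_mul]
      _ ≤ ∑ w ∈ nb G S z, ((nb G S w).erase z).card := by
          refine Finset.sum_le_sum fun w hw => ?_
          have h2 := hS w (mem_nb.1 hw).1
          have h3 : (nb G S w).card - 1 ≤ ((nb G S w).erase z).card :=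
            Finset.pred_card_le_card_erase
          omega
  have h2 : ((nb G S z).biUnion fun w => (nb G S w).erase z).card =
      ∑ w ∈ nb G S z, ((nb G S w).erase z).card := by
    refine Finset.card_biUnion fun w hw w' hw' hne => ?_
    refine Finset.disjoint_left.2 ?_
    intro u hu hu'
    rw [Finset.mem_erase, mem_nb] at hu hu'
    exact hG u z w w' hu.1 hne hu.2.2.symm hu'.2.2.symm (mem_nb.1 hw).2 (mem_nb.1 hw').2
  rw [← h2] at h1
  refine h1.trans (Finset.card_le_card fun u hu => ?_)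
  rw [Finset.mem_biUnion] at hu
  obtain ⟨w, hw, hu⟩ := hu
  rw [Finset.mem_erase, mem_nb] at hu
  exact mem_n2.2 ⟨hu.2.1, hu.1, w, hu.2.2.symm, (mem_nb.1 hw).2.symm⟩
-- END n2c

-- BEGIN gns
/-- ROW gns. At most one of `a`, `b`, `c` is `z`. -/
theorem gns {G : SimpleGraph V} {S : Finset V} {z : V} (hS : Gen G S) (hz : Thr G S z) :
    Gen G (insert z S) := by
  intro v a b c hv ha hb hc hab hac hbc hva hvb hvc
  have hvS : v ∉ S := fun h => hv (Finset.mem_insert_of_mem h)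
  rcases Finset.mem_insert.1 ha with rfl | haS
  · have hbS : b ∈ S := (Finset.mem_insert.1 hb).resolve_left (Ne.symm hab)
    have hcS : c ∈ S := (Finset.mem_insert.1 hc).resolve_left (Ne.symm hac)
    exact hz v b c hvS hbS hcS hbc hvb hvc hva
  · rcases Finset.mem_insert.1 hb with rfl | hbS
    · have hcS : c ∈ S := (Finset.mem_insert.1 hc).resolve_left (Ne.symm hbc)
      exact hz v a c hvS haS hcS hac hva hvc hvb
    · rcases Finset.mem_insert.1 hc with rfl | hcS
      · exact hz v a b hvS haS hbS hab hva hvb hvc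
      · exact hS v a b c hvS haS hbS hcS hab hac hbc hva hvb hvc

/-- ROW gns. For `Thr`: `v ∈ S' \ S` is not adjacent to `z` by the second part of `Fre G S' z`. -/
theorem fre_mono {G : SimpleGraph V} {S S' : Finset V} (h : S ⊆ S') {z : V} (hz : Fre G S' z) :
    Fre G S z := by
  obtain ⟨h1, h2, h3⟩ := hz
  refine ⟨fun hzS => h1 (h hzS), fun a ha => h2 a (h ha), ?_⟩
  intro v a b _ ha hb hab hva hvb
  by_cases hv : v ∈ S'
  · exact h2 v hv
  · exact h3 v a b hv (h ha) (h hb) hab hva hvb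
-- END gns

-- BEGIN exl
private theorem exl_one {G : SimpleGraph V} (hG : C4F G) {N : Finset V} {p : V}
    (hN : ∀ y ∈ N, G.Adj p y) (a : V) :
    (N.filter fun y => a ≠ p ∧ G.Adj a y).card ≤ 1 := by
  rw [Finset.card_le_one]
  intro y hy y' hy'
  rw [Finset.mem_filter] at hy hy'
  by_contra hne
  exact hG a p y y' hy.2.1 hne hy.2.2 hy'.2.2 (hN y hy.1) (hN y' hy'.1)

private theorem exl_two {G : SimpleGraph V} (hG : C4F G) {S N : Finset V} {p : V} (hp : p ∈ S)
    (hN : ∀ y ∈ N, G.Adj p y) (a b : V) :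
    (N.filter fun y => a ≠ b ∧ ∃ v, v ∉ S ∧ G.Adj v a ∧ G.Adj v b ∧ G.Adj v y).card ≤ 1 := by
  rw [Finset.card_le_one]
  intro y hy y' hy'
  rw [Finset.mem_filter] at hy hy'
  obtain ⟨hy0, hab, v, hv, hva, hvb, hvy⟩ := hy
  obtain ⟨hy0', -, v', hv', hva', hvb', hvy'⟩ := hy'
  have hvv : v = v' := by
    by_contra hne
    exact hG a b v v' hab hne hva.symm hva'.symm hvb.symm hvb'.symm
  subst hvv
  by_contra hne
  have hvp : v ≠ p := by
    rintro rfl
    exact hv hp
  exact hG v p y y' hvp hne hvy hvy' (hN y hy0) (hN y' hy0')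

/-- ROW exl. The excluded `y` lie in `S`, or are adjacent to some `a ∈ S`, `a ≠ p` (at most one for each `a`, by `C4F`
for `a`, `p`), or are adjacent to some `v ∉ S` which is a common neighbour of `a ≠ b` in `S` (for each pair `(a, b)` at most one `v`
and, as `v ≠ p`, at most one `y`). `Finset.card_biUnion_le_card_mul`, `Finset.card_le_one`. -/
theorem exl {G : SimpleGraph V} (hG : C4F G) {S N : Finset V} {p : V} (hp : p ∈ S)
    (hN : ∀ y ∈ N, G.Adj p y) :
    (N.filter fun y => ¬ Lef G S p y).card ≤ 2 * S.card + S.card ^ 2 := by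
  have h1 : (N.filter fun y => ¬ Lef G S p y) ⊆ S ∪
      (S.biUnion (fun a => N.filter fun y => a ≠ p ∧ G.Adj a y) ∪
      (S ×ˢ S).biUnion fun q => N.filter fun y => q.1 ≠ q.2 ∧
        ∃ v, v ∉ S ∧ G.Adj v q.1 ∧ G.Adj v q.2 ∧ G.Adj v y) := by
    intro y hy
    rw [Finset.mem_filter] at hy
    obtain ⟨hyN, hy⟩ := hy
    rw [Finset.mem_union, Finset.mem_union, Finset.mem_biUnion, Finset.mem_biUnion]
    by_contra hcon
    push Not at hcon
    obtain ⟨c1, c2, c3⟩ := hcon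
    apply hy
    refine ⟨c1, hN y hyN, ?_, ?_⟩
    · intro a ha hap hay
      exact c2 a ha (Finset.mem_filter.2 ⟨hyN, hap, hay⟩)
    · intro v a b hv ha hb hab hva hvb hvy
      exact c3 (a, b) (Finset.mem_product.2 ⟨ha, hb⟩)
        (Finset.mem_filter.2 ⟨hyN, hab, v, hv, hva, hvb, hvy⟩)
  have h2 : (S.biUnion (fun a => N.filter fun y => a ≠ p ∧ G.Adj a y)).card ≤ S.card * 1 :=
    Finset.card_biUnion_le_card_mul _ _ _ fun a _ => exl_one hG hN a
  have h3 : ((S ×ˢ S).biUnion fun q => N.filter fun y => q.1 ≠ q.2 ∧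
        ∃ v, v ∉ S ∧ G.Adj v q.1 ∧ G.Adj v q.2 ∧ G.Adj v y).card ≤ (S ×ˢ S).card * 1 :=
    Finset.card_biUnion_le_card_mul _ _ _ fun q _ => exl_two hG hp hN q.1 q.2
  have h4 := Finset.card_le_card h1
  have h5 := Finset.card_union_le S
      (S.biUnion (fun a => N.filter fun y => a ≠ p ∧ G.Adj a y) ∪
      (S ×ˢ S).biUnion fun q => N.filter fun y => q.1 ≠ q.2 ∧
        ∃ v, v ∉ S ∧ G.Adj v q.1 ∧ G.Adj v q.2 ∧ G.Adj v y)
  have h6 := Finset.card_union_le (S.biUnion (fun a => N.filter fun y => a ≠ p ∧ G.Adj a y))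
      ((S ×ˢ S).biUnion fun q => N.filter fun y => q.1 ≠ q.2 ∧
        ∃ v, v ∉ S ∧ G.Adj v q.1 ∧ G.Adj v q.2 ∧ G.Adj v y)
  rw [Finset.card_product] at h3
  rw [sq]
  omega
-- END exl

-- BEGIN exr
private theorem exr_two {G : SimpleGraph V} {m : ℕ} (hG : C4F G) (hm : Alp G m) (S U : Finset V)
    (a b : V) :
    (U.filter fun z => a ≠ b ∧ ∃ v, v ∉ S ∧ G.Adj v a ∧ G.Adj v b ∧ G.Adj v z).card ≤ 2 * m := by
  by_cases h : a ≠ b ∧ ∃ v, v ∉ S ∧ G.Adj v a ∧ G.Adj v b
  · obtain ⟨hab, v, hv, hva, hvb⟩ := h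
    refine le_trans (Finset.card_le_card ?_) (deg hG hm U v).le
    intro z hz
    rw [Finset.mem_filter] at hz
    obtain ⟨hzU, -, v', hv', hva', hvb', hvz'⟩ := hz
    have hvv : v = v' := by
      by_contra hne
      exact hG a b v v' hab hne hva.symm hva'.symm hvb.symm hvb'.symm
    subst hvv
    exact mem_nb.2 ⟨hzU, hvz'⟩
  · rw [Finset.filter_eq_empty_iff.2, Finset.card_empty]
    · exact Nat.zero_le _
    · rintro z - ⟨hab, v, hv, hva, hvb, -⟩
      exact h ⟨hab, v, hv, hva, hvb⟩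

/-- ROW exr. The excluded `z` lie in `S`, or in `nb G U a` for some `a ∈ S`, or in `nb G U v` for some `v ∉ S` which is a common
neighbour of `a ≠ b` in `S` (at most one `v` for each pair); by `deg` every `nb` has at most `2 * m` elements. -/
theorem exr {G : SimpleGraph V} {m : ℕ} (hG : C4F G) (hm : Alp G m) (S U : Finset V) :
    (U.filter fun z => ¬ Fre G S z).card ≤ 2 * m * (S.card + 1) ^ 2 := by
  have h1 : (U.filter fun z => ¬ Fre G S z) ⊆ S ∪
      (S.biUnion (fun a => nb G U a) ∪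
      (S ×ˢ S).biUnion fun q => U.filter fun z => q.1 ≠ q.2 ∧
        ∃ v, v ∉ S ∧ G.Adj v q.1 ∧ G.Adj v q.2 ∧ G.Adj v z) := by
    intro z hz
    rw [Finset.mem_filter] at hz
    obtain ⟨hzU, hz⟩ := hz
    rw [Finset.mem_union, Finset.mem_union, Finset.mem_biUnion, Finset.mem_biUnion]
    by_contra hcon
    push Not at hcon
    obtain ⟨c1, c2, c3⟩ := hcon
    apply hz
    refine ⟨c1, ?_, ?_⟩
    · intro a ha haz
      exact c2 a ha (mem_nb.2 ⟨hzU, haz⟩)
    · intro v a b hv ha hb hab hva hvb hvz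
      exact c3 (a, b) (Finset.mem_product.2 ⟨ha, hb⟩)
        (Finset.mem_filter.2 ⟨hzU, hab, v, hv, hva, hvb, hvz⟩)
  have h2 : (S.biUnion (fun a => nb G U a)).card ≤ S.card * (2 * m) :=
    Finset.card_biUnion_le_card_mul _ _ _ fun a _ => (deg hG hm U a).le
  have h3 : ((S ×ˢ S).biUnion fun q => U.filter fun z => q.1 ≠ q.2 ∧
        ∃ v, v ∉ S ∧ G.Adj v q.1 ∧ G.Adj v q.2 ∧ G.Adj v z).card ≤ (S ×ˢ S).card * (2 * m) :=
    Finset.card_biUnion_le_card_mul _ _ _ fun q _ => exr_two hG hm S U q.1 q.2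
  have h4 := Finset.card_le_card h1
  have h5 := Finset.card_union_le S
      (S.biUnion (fun a => nb G U a) ∪
      (S ×ˢ S).biUnion fun q => U.filter fun z => q.1 ≠ q.2 ∧
        ∃ v, v ∉ S ∧ G.Adj v q.1 ∧ G.Adj v q.2 ∧ G.Adj v z)
  have h6 := Finset.card_union_le (S.biUnion (fun a => nb G U a))
      ((S ×ˢ S).biUnion fun q => U.filter fun z => q.1 ≠ q.2 ∧
        ∃ v, v ∉ S ∧ G.Adj v q.1 ∧ G.Adj v q.2 ∧ G.Adj v z)
  rw [Finset.card_product] at h3
  have h7 : 1 ≤ m := alp_pos hm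
  have h8 : S.card * 1 ≤ S.card * m := Nat.mul_le_mul_left _ h7
  have h9 : 2 * m * (S.card + 1) ^ 2 = S.card * S.card * (2 * m) + S.card * (2 * m) +
      S.card * m + S.card * m + 2 * m := by ring
  rw [h9]
  omega
-- END exr

-- BEGIN pst
/-- ROW pst. Let `N` be the set of the `y ∈ nb G univ p` with `Lef G S p y`, `N.card < 2 * m` (`deg`). Double count the pairs
`(z, y)`, `z ∈ Z`, `y ∈ N ∩ Us z`: at least `Z.card * D` by `exl` (applied to `nb G (Us z) p`). If the claim fails for every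
`y ∈ N` then `Z.card * D * (2 * m) ≤ (∑ y ∈ N, ..) * (2 * m) < N.card * (Z.card * D)`. -/
theorem pst [Fintype V] {G : SimpleGraph V} {m : ℕ} (hG : C4F G) (hm : Alp G m) {S Z : Finset V}
    {p : V} (hp : p ∈ S) (hZ : Z.Nonempty) {Us : V → Finset V} {D c : ℕ} (hD : 1 ≤ D)
    (hc : 2 * S.card + S.card ^ 2 ≤ c) (h : ∀ z ∈ Z, D + c ≤ (nb G (Us z) p).card) :
    ∃ y, Lef G S p y ∧ Z.card * D ≤ 2 * m * (Z.filter fun z => y ∈ Us z).card := by
  by_contra hcon
  push Not at hcon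
  set N : Finset V := (nb G Finset.univ p).filter fun y => Lef G S p y with hN
  have h1 : N.card < 2 * m := (Finset.card_filter_le _ _).trans_lt (deg hG hm Finset.univ p)
  have h2 : ∀ z ∈ Z, D ≤ (N.filter fun y => y ∈ Us z).card := by
    intro z hz
    have e1 := h z hz
    have e2 := exl (N := nb G (Us z) p) hG hp fun y hy => (mem_nb.1 hy).2
    have e3 := Finset.card_filter_add_card_filter_not (s := nb G (Us z) p) fun y => Lef G S p y
    have e4 : ((nb G (Us z) p).filter fun y => Lef G S p y) ⊆ N.filter fun y => y ∈ Us z := by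
      intro y hy
      rw [Finset.mem_filter, mem_nb] at hy
      rw [Finset.mem_filter, hN, Finset.mem_filter, mem_nb]
      exact ⟨⟨⟨Finset.mem_univ _, hy.1.2⟩, hy.2⟩, hy.1.1⟩
    have e5 := Finset.card_le_card e4
    omega
  have h3 : Z.card * D ≤ ∑ z ∈ Z, (N.filter fun y => y ∈ Us z).card := by
    rw [← smul_eq_mul]
    exact Finset.card_nsmul_le_sum _ _ _ h2
  have h4 : ∑ z ∈ Z, (N.filter fun y => y ∈ Us z).card =
      ∑ y ∈ N, (Z.filter fun z => y ∈ Us z).card := by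
    simp only [Finset.card_filter]
    exact Finset.sum_comm
  have h5 : ∑ y ∈ N, 2 * m * (Z.filter fun z => y ∈ Us z).card ≤ N.card * (Z.card * D) := by
    rw [← smul_eq_mul (a := N.card)]
    refine Finset.sum_le_card_nsmul _ _ _ fun y hy => ?_
    rw [hN, Finset.mem_filter] at hy
    exact (hcon y hy.2).le
  rw [← Finset.mul_sum, ← h4] at h5
  have h6 : 0 < Z.card * D := Nat.mul_pos hZ.card_pos hD
  have h7 : 2 * m * (Z.card * D) ≤ N.card * (Z.card * D) := (Nat.mul_le_mul_left _ h3).trans h5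
  exact absurd (Nat.le_of_mul_le_mul_right h7 h6) (not_le.2 h1)
-- END pst

-- BEGIN rst
/-- ROW rst. Double count the pairs `(z, y)`, `z ∈ Z`, `y ∈ Us z`. -/
theorem rst [Fintype V] {Z : Finset V} (hZ : Z.Nonempty) {Us : V → Finset V} {K : ℕ}
    (h : ∀ z ∈ Z, Fintype.card V ≤ K * (Us z).card) :
    ∃ y, Z.card ≤ K * (Z.filter fun z => y ∈ Us z).card := by
  by_contra hcon
  have hcon' : ∀ y, K * (Z.filter fun z => y ∈ Us z).card < Z.card := fun y =>
    not_le.1 fun hy => hcon ⟨y, hy⟩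
  obtain ⟨z0, -⟩ := hZ
  have h1 : ∑ y : V, K * (Z.filter fun z => y ∈ Us z).card < ∑ _y : V, Z.card :=
    Finset.sum_lt_sum_of_nonempty ⟨z0, Finset.mem_univ z0⟩ fun y _ => hcon' y
  have h2 : ∑ y : V, (Z.filter fun z => y ∈ Us z).card = ∑ z ∈ Z, (Us z).card := by
    simp only [Finset.card_filter]
    rw [Finset.sum_comm]
    refine Finset.sum_congr rfl fun z _ => ?_
    rw [← Finset.card_filter, Finset.filter_mem_eq_inter, Finset.univ_inter]
  rw [← Finset.mul_sum, h2, Finset.mul_sum, Finset.sum_const, smul_eq_mul, Finset.card_univ] at h1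
  have h3 : ∑ _z ∈ Z, Fintype.card V ≤ ∑ z ∈ Z, K * (Us z).card := Finset.sum_le_sum h
  rw [Finset.sum_const, smul_eq_mul, mul_comm] at h3
  omega
-- END rst

/-- a copy of the tree with the vertices `0, …, t - 1` and the edges `{p i, i}`, `0 < i` -/
structure Cop (G : SimpleGraph V) (X : Finset V) (p : ℕ → ℕ) (t : ℕ) (τ : ℕ → V) : Prop where
  inj : ∀ i j, i < t → j < t → τ i = τ j → i = j
  fre : ∀ i, i < t → Fre G X (τ i)
  adj : ∀ i, 0 < i → i < t → G.Adj (τ (p i)) (τ i)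
  gen : Gen G (X ∪ (range t).image τ)

-- BEGIN tre
/-- ROW tre. Induction on `t`. `t = 0`: `rst`, constant `τ`, `gns`. Step: `Z'` for `t` is nonempty (`0 < Z.card * D ^ t`); apply
`pst` with `S = X ∪ (range (t + 1)).image τ`, `p := τ (p (t + 1))`, `Z := Z'`; `τ' = Function.update τ (t + 1) y`, `gns`; the new
`Z'` is the filter (nonempty, so `y ∈ Us z` for some `z`, so `Fre G X y`). -/
theorem tre [Fintype V] {G : SimpleGraph V} {m : ℕ} (hG : C4F G) (hm : Alp G m) {p : ℕ → ℕ}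
    (hp : ∀ i, 0 < i → p i < i) {X Z : Finset V} (hX : Gen G X) (hZ : Z.Nonempty)
    {Us : V → Finset V} {D c K : ℕ} (hD : 1 ≤ D) (hfre : ∀ z ∈ Z, ∀ u ∈ Us z, Fre G X u)
    (hdeg : ∀ z ∈ Z, ∀ u ∈ Us z, D + c ≤ (nb G (Us z) u).card)
    (hK : ∀ z ∈ Z, Fintype.card V ≤ K * (Us z).card) (t : ℕ)
    (hc : 2 * (X.card + t) + (X.card + t) ^ 2 ≤ c) :
    ∃ τ : ℕ → V, ∃ Z' ⊆ Z, Cop G X p (t + 1) τ ∧ (∀ z ∈ Z', ∀ i, i < t + 1 → τ i ∈ Us z) ∧
      Z.card * D ^ t ≤ K * (2 * m) ^ t * Z'.card := by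
  induction t with
  | zero =>
    obtain ⟨y, hy⟩ := rst hZ hK
    have hZ0 : 0 < Z.card := Finset.card_pos.mpr hZ
    have hne : 0 < (Z.filter fun z => y ∈ Us z).card := by
      rcases Nat.eq_zero_or_pos (Z.filter fun z => y ∈ Us z).card with h | h
      · rw [h, mul_zero] at hy
        omega
      · exact h
    obtain ⟨z, hz⟩ := Finset.card_pos.mp hne
    rw [Finset.mem_filter] at hz
    have hFy : Fre G X y := hfre z hz.1 y hz.2
    refine ⟨fun _ => y, Z.filter fun z => y ∈ Us z, Finset.filter_subset _ _, ?_, ?_, ?_⟩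
    · refine ⟨?_, ?_, ?_, ?_⟩
      · intro i j hi hj _
        omega
      · intro i _
        exact hFy
      · intro i hi hi1
        omega
      · have e1 : X ∪ (range (0 + 1)).image (fun _ : ℕ => y) = insert y X := by
          ext v
          simp only [Finset.mem_union, Finset.mem_image, Finset.mem_range, Finset.mem_insert]
          constructor
          · rintro (h | ⟨_, _, h⟩)
            · exact Or.inr h
            · exact Or.inl h.symm
          · rintro (h | h)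
            · exact Or.inr ⟨0, by omega, h.symm⟩
            · exact Or.inl h
        rw [e1]
        exact gns hX hFy.2.2
    · intro z hz i _
      exact (Finset.mem_filter.mp hz).2
    · simpa using hy
  | succ t ih =>
    obtain ⟨τ, Z', hsub, hC, hmem, hcard⟩ := ih (le_trans (by gcongr <;> omega) hc)
    have hZ0 : 0 < Z.card := Finset.card_pos.mpr hZ
    have hDt : 0 < D ^ t := Nat.pow_pos (by omega)
    have hZ'0 : 0 < Z'.card := by
      rcases Nat.eq_zero_or_pos Z'.card with h | h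
      · rw [h, mul_zero] at hcard
        have := Nat.mul_pos hZ0 hDt
        omega
      · exact h
    have hpt : p (t + 1) < t + 1 := hp (t + 1) (by omega)
    have hPS : τ (p (t + 1)) ∈ X ∪ (range (t + 1)).image τ :=
      Finset.mem_union_right _ (Finset.mem_image_of_mem _ (Finset.mem_range.mpr hpt))
    have hScard : (X ∪ (range (t + 1)).image τ).card ≤ X.card + (t + 1) :=
      le_trans (Finset.card_union_le _ _)
        (Nat.add_le_add_left (le_trans Finset.card_image_le (by simp)) _)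
    obtain ⟨y, hL, hy⟩ := pst hG hm hPS (Finset.card_pos.mp hZ'0) hD
      (le_trans (by gcongr) hc)
      (fun z hz => hdeg z (hsub hz) _ (hmem z hz _ hpt))
    have hne : 0 < (Z'.filter fun z => y ∈ Us z).card := by
      rcases Nat.eq_zero_or_pos (Z'.filter fun z => y ∈ Us z).card with h | h
      · rw [h, mul_zero] at hy
        have := Nat.mul_pos hZ'0 (show 0 < D by omega)
        omega
      · exact h
    obtain ⟨z, hz⟩ := Finset.card_pos.mp hne
    rw [Finset.mem_filter] at hz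
    have hFy : Fre G X y := hfre z (hsub hz.1) y hz.2
    have hupd : ∀ i, i < t + 1 → Function.update τ (t + 1) y i = τ i := fun i hi =>
      Function.update_of_ne (by omega) _ _
    have hself : Function.update τ (t + 1) y (t + 1) = y := Function.update_self _ _ _
    have hτS : ∀ i, i < t + 1 → τ i ∈ X ∪ (range (t + 1)).image τ := fun i hi =>
      Finset.mem_union_right _ (Finset.mem_image_of_mem _ (Finset.mem_range.mpr hi))
    refine ⟨Function.update τ (t + 1) y, Z'.filter fun z => y ∈ Us z,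
      (Finset.filter_subset _ _).trans hsub, ?_, ?_, ?_⟩
    · refine ⟨?_, ?_, ?_, ?_⟩
      · intro i j hi hj hij
        rcases Nat.lt_succ_iff_lt_or_eq.mp hi with hi | hi <;>
          rcases Nat.lt_succ_iff_lt_or_eq.mp hj with hj | hj
        · rw [hupd i hi, hupd j hj] at hij
          exact hC.inj i j hi hj hij
        · subst hj
          rw [hupd i hi, hself] at hij
          exact absurd (hij ▸ hτS i hi) hL.1
        · subst hi
          rw [hupd j hj, hself] at hij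
          exact absurd (hij ▸ hτS j hj) hL.1
        · omega
      · intro i hi
        rcases Nat.lt_succ_iff_lt_or_eq.mp hi with hi | hi
        · rw [hupd i hi]
          exact hC.fre i hi
        · subst hi
          rw [hself]
          exact hFy
      · intro i hi0 hi
        rcases Nat.lt_succ_iff_lt_or_eq.mp hi with hi | hi
        · rw [hupd i hi, hupd (p i) (lt_trans (hp i hi0) hi)]
          exact hC.adj i hi0 hi
        · subst hi
          rw [hself, hupd _ hpt]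
          exact hL.2.1
      · have e1 : X ∪ (range (t + 1 + 1)).image (Function.update τ (t + 1) y) =
            insert y (X ∪ (range (t + 1)).image τ) := by
          ext v
          simp only [Finset.mem_union, Finset.mem_image, Finset.mem_range, Finset.mem_insert]
          constructor
          · rintro (h | ⟨i, hi, h⟩)
            · exact Or.inr (Or.inl h)
            · rcases Nat.lt_succ_iff_lt_or_eq.mp hi with hi | hi
              · rw [hupd i hi] at h
                exact Or.inr (Or.inr ⟨i, hi, h⟩)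
              · subst hi
                rw [hself] at h
                exact Or.inl h.symm
          · rintro (h | h | ⟨i, hi, h⟩)
            · exact Or.inr ⟨t + 1, by omega, by rw [hself, h]⟩
            · exact Or.inl h
            · exact Or.inr ⟨i, by omega, by rw [hupd i hi, h]⟩
        rw [e1]
        exact gns hC.gen hL.2.2.2
    · intro z hz i hi
      rw [Finset.mem_filter] at hz
      rcases Nat.lt_succ_iff_lt_or_eq.mp hi with hi | hi
      · rw [hupd i hi]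
        exact hmem z hz.1 i hi
      · subst hi
        rw [hself]
        exact hz.2
    · calc Z.card * D ^ (t + 1) = Z.card * D ^ t * D := by ring
        _ ≤ K * (2 * m) ^ t * Z'.card * D := Nat.mul_le_mul_right _ hcard
        _ = K * (2 * m) ^ t * (Z'.card * D) := by ring
        _ ≤ K * (2 * m) ^ t * (2 * m * (Z'.filter fun z => y ∈ Us z).card) :=
            Nat.mul_le_mul_left _ hy
        _ = K * (2 * m) ^ (t + 1) * (Z'.filter fun z => y ∈ Us z).card := by ring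
-- END tre

-- BEGIN onk
/-- ROW onk. `mdu` gives `S₁ ⊆ U` (`Z = S₁`); for `z ∈ S₁` `mdu` for `n2 G S₁ z` (`n2c`) gives `Us z ⊆ n2 G S₁ z` with
`D1 * (D1 - 1) ≤ 2 * (Us z).card`, so `card V ≤ K1 * (Us z).card`; `tre`; `U' = Z'.filter (Fre G (X ∪ ..))`, `exr`. -/
theorem onk [Fintype V] {G : SimpleGraph V} {m : ℕ} (hG : C4F G) (hm : Alp G m) {p : ℕ → ℕ}
    (hp : ∀ i, 0 < i → p i < i) {X U : Finset V} (hX : Gen G X) (hU : ∀ u ∈ U, Fre G X u)
    {D1 D2 D c K1 : ℕ} (t : ℕ) (h1 : 2 * (D1 * m) ≤ U.card) (hU0 : 0 < U.card)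
    (h2 : 2 * (D2 * m) ≤ D1 * (D1 - 1)) (hK : 2 * Fintype.card V ≤ K1 * (D1 * (D1 - 1)))
    (hD : 1 ≤ D) (hDc : D + c ≤ D2) (hc : 2 * (X.card + t) + (X.card + t) ^ 2 ≤ c) :
    ∃ τ : ℕ → V, ∃ U' ⊆ U, Cop G X p (t + 1) τ ∧ (∀ i, i < t + 1 → τ i ∈ U) ∧
      (∀ z ∈ U', Fre G (X ∪ (range (t + 1)).image τ) z) ∧
      (∀ z ∈ U', ∀ i, i < t + 1 → ∃ w, G.Adj (τ i) w ∧ G.Adj w z) ∧
      U.card * D ^ t ≤ 2 * K1 * (2 * m) ^ t * (U'.card + 2 * m * (X.card + t + 2) ^ 2) := by
  obtain ⟨S1, s1, s2, s3⟩ := mdu hm D1 U h1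
  have hS0 : 0 < S1.card := by omega
  have key : ∀ z ∈ S1, ∃ S' : Finset V, S' ⊆ n2 G S1 z ∧ D1 * (D1 - 1) ≤ 2 * S'.card ∧
      ∀ v ∈ S', D2 ≤ (nb G S' v).card := by
    intro z hz
    have a1 := n2c hG s3 hz
    obtain ⟨S', b1, b2, b3⟩ := mdu hm D2 (n2 G S1 z) (h2.trans a1)
    exact ⟨S', b1, a1.trans b2, b3⟩
  choose! Us u1 u2 u3 using key
  have hsub : ∀ z ∈ S1, ∀ u ∈ Us z, u ∈ U := fun z hz u hu => s1 (mem_n2.1 (u1 z hz hu)).1
  obtain ⟨τ, Z', z1, z2, z3, z4⟩ := tre hG hm hp hX (Finset.card_pos.1 hS0) (Us := Us) (K := K1) hD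
    (fun z hz u hu => hU u (hsub z hz u hu)) (fun z hz u hu => hDc.trans (u3 z hz u hu))
    (fun z hz => by
      have a1 : K1 * (D1 * (D1 - 1)) ≤ K1 * (2 * (Us z).card) := Nat.mul_le_mul_left _ (u2 z hz)
      have a2 : K1 * (2 * (Us z).card) = 2 * (K1 * (Us z).card) := by ring
      omega) t hc
  have hZ0 : 0 < Z'.card := by
    rcases Nat.eq_zero_or_pos Z'.card with h | h
    · rw [h, mul_zero] at z4
      have : 0 < S1.card * D ^ t := Nat.mul_pos hS0 (Nat.pow_pos hD)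
      omega
    · exact h
  refine ⟨τ, Z'.filter fun z => Fre G (X ∪ (range (t + 1)).image τ) z,
    (Finset.filter_subset _ _).trans (z1.trans s1), z2, ?_, ?_, ?_, ?_⟩
  · intro i hi
    obtain ⟨z, hz⟩ := Finset.card_pos.1 hZ0
    exact hsub z (z1 hz) _ (z3 z hz i hi)
  · intro z hz
    exact (Finset.mem_filter.1 hz).2
  · intro z hz i hi
    have hz' := (Finset.mem_filter.1 hz).1
    exact (mem_n2.1 (u1 z (z1 hz') (z3 z hz' i hi))).2.2
  · have e1 := exr hG hm (X ∪ (range (t + 1)).image τ) Z'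
    have e2 : (X ∪ (range (t + 1)).image τ).card ≤ X.card + (t + 1) := by
      refine (Finset.card_union_le _ _).trans ?_
      have := Finset.card_image_le (s := range (t + 1)) (f := τ)
      rw [Finset.card_range] at this
      omega
    have e3 : ((X ∪ (range (t + 1)).image τ).card + 1) ^ 2 ≤ (X.card + t + 2) ^ 2 :=
      Nat.pow_le_pow_left (by omega) 2
    have e4 : Z'.card ≤ (Z'.filter fun z => Fre G (X ∪ (range (t + 1)).image τ) z).card +
        2 * m * (X.card + t + 2) ^ 2 := by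
      have := Finset.card_filter_add_card_filter_not (s := Z')
        (p := fun z => Fre G (X ∪ (range (t + 1)).image τ) z)
      have e5 := Nat.mul_le_mul_left (2 * m) e3
      omega
    calc U.card * D ^ t ≤ 2 * S1.card * D ^ t := Nat.mul_le_mul_right _ s2
      _ = 2 * (S1.card * D ^ t) := by ring
      _ ≤ 2 * (K1 * (2 * m) ^ t * Z'.card) := Nat.mul_le_mul_left _ z4
      _ = 2 * K1 * (2 * m) ^ t * Z'.card := by ring
      _ ≤ _ := Nat.mul_le_mul_left _ e4
-- END onk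

-- BEGIN one
private theorem one_num (t s c P m n u : ℕ) (hP : 1 ≤ P) (hc : 1 ≤ c) (hn : n ≤ 2 * m ^ 2)
    (hm : m ^ 2 ≤ P * u) (hnu : n ≤ P * u) (h1 : 8 * P ≤ m) (h2 : 512 * c * P ^ 2 ≤ m)
    (h3 : 4096 * 2048 ^ t * (s + t + 2) ^ 2 * P ^ (3 + 2 * t) ≤ m) :
    ∃ D1 D2 D K1 : ℕ, 2 * (D1 * m) ≤ u ∧ 0 < u ∧ 2 * (D2 * m) ≤ D1 * (D1 - 1) ∧
      2 * n ≤ K1 * (D1 * (D1 - 1)) ∧ 1 ≤ D ∧ D + c ≤ D2 ∧
      ∀ u' x : ℕ, x ≤ s → u * D ^ t ≤ 2 * K1 * (2 * m) ^ t * (u' + 2 * m * (x + t + 2) ^ 2) →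
        n ≤ 2048 ^ (t + 1) * P ^ (3 + 2 * t) * u' := by
  have hm1 : 1 ≤ m := by omega
  obtain ⟨D1, hD1⟩ : ∃ D1, D1 = m / (4 * P) := ⟨_, rfl⟩
  obtain ⟨D2, hD2⟩ : ∃ D2, D2 = m / (256 * P ^ 2) := ⟨_, rfl⟩
  have hP2 : 1 ≤ P ^ 2 := Nat.one_le_pow _ _ hP
  have a1 : D1 * (4 * P) ≤ m := by rw [hD1]; exact Nat.div_mul_le_self _ _
  have a2 : 2 ≤ D1 := by
    rw [hD1, Nat.le_div_iff_mul_le (by omega)]; omega
  have a3 : m ≤ 2 * (4 * P) * D1 := by
    have h := Nat.lt_mul_div_succ m (show 0 < 4 * P by omega)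
    rw [← hD1] at h
    nlinarith
  have b1 : D2 * (256 * P ^ 2) ≤ m := by rw [hD2]; exact Nat.div_mul_le_self _ _
  have b2 : 2 * c ≤ D2 := by
    rw [hD2, Nat.le_div_iff_mul_le (by omega)]; linarith
  have b3 : m ≤ 2 * (256 * P ^ 2) * D2 := by
    have h := Nat.lt_mul_div_succ m (show 0 < 256 * P ^ 2 by omega)
    rw [← hD2] at h
    nlinarith
  obtain ⟨E, hE⟩ : ∃ E, D1 = E + 1 := ⟨D1 - 1, by omega⟩
  have hDD : D1 ^ 2 ≤ 2 * (D1 * (D1 - 1)) := by
    rw [hE, Nat.add_sub_cancel]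
    have : 1 ≤ E := by omega
    nlinarith
  have hmD : m ^ 2 ≤ 64 * P ^ 2 * D1 ^ 2 := by
    calc m ^ 2 ≤ (2 * (4 * P) * D1) ^ 2 := Nat.pow_le_pow_left a3 2
      _ = 64 * P ^ 2 * D1 ^ 2 := by ring
  refine ⟨D1, D2, D2 - c, 512 * P ^ 2, ?_, ?_, ?_, ?_, by omega, by omega, ?_⟩
  · -- 2 D1 m ≤ u
    have h4 : P * (4 * (D1 * m)) ≤ P * u := by
      calc P * (4 * (D1 * m)) = D1 * (4 * P) * m := by ring
        _ ≤ m * m := Nat.mul_le_mul_right m a1
        _ = m ^ 2 := by ring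
        _ ≤ P * u := hm
    have h5 := Nat.le_of_mul_le_mul_left h4 (by omega)
    omega
  · by_contra hu
    have : u = 0 := by omega
    rw [this] at hm
    have : 0 < m ^ 2 := by positivity
    omega
  · have h4 : P ^ 2 * (256 * (D2 * m)) ≤ P ^ 2 * (64 * D1 ^ 2) := by
      calc P ^ 2 * (256 * (D2 * m)) = D2 * (256 * P ^ 2) * m := by ring
        _ ≤ m * m := Nat.mul_le_mul_right m b1
        _ = m ^ 2 := by ring
        _ ≤ 64 * P ^ 2 * D1 ^ 2 := hmD
        _ = P ^ 2 * (64 * D1 ^ 2) := by ring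
    have h5 := Nat.le_of_mul_le_mul_left h4 (by omega)
    omega
  · calc 2 * n ≤ 4 * m ^ 2 := by omega
      _ ≤ 4 * (64 * P ^ 2 * D1 ^ 2) := Nat.mul_le_mul_left 4 hmD
      _ ≤ 4 * (64 * P ^ 2 * (2 * (D1 * (D1 - 1)))) :=
        Nat.mul_le_mul_left 4 (Nat.mul_le_mul_left _ hDD)
      _ = 512 * P ^ 2 * (D1 * (D1 - 1)) := by ring
  · intro u' x hx hu
    obtain ⟨D, hD⟩ : ∃ D, D = D2 - c := ⟨_, rfl⟩
    rw [← hD] at hu
    have c1 : D2 ≤ 2 * D := by omega
    have c0 : 1 ≤ D := by omega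
    have c2 : m ≤ 1024 * P ^ 2 * D := by
      calc m ≤ 2 * (256 * P ^ 2) * D2 := b3
        _ ≤ 2 * (256 * P ^ 2) * (2 * D) := Nat.mul_le_mul_left _ c1
        _ = 1024 * P ^ 2 * D := by ring
    have c3 : (2 * m) ^ t ≤ (2048 * P ^ 2) ^ t * D ^ t := by
      rw [← Nat.mul_pow]
      apply Nat.pow_le_pow_left
      calc 2 * m ≤ 2 * (1024 * P ^ 2 * D) := Nat.mul_le_mul_left 2 c2
        _ = 2048 * P ^ 2 * D := by ring
    obtain ⟨R, hR⟩ : ∃ R, R = 1024 * P ^ 2 * (2048 * P ^ 2) ^ t := ⟨_, rfl⟩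
    have c4 : u ≤ R * (u' + 2 * m * (x + t + 2) ^ 2) := by
      have h4 : D ^ t * u ≤ D ^ t * (R * (u' + 2 * m * (x + t + 2) ^ 2)) := by
        calc D ^ t * u = u * D ^ t := by ring
          _ ≤ 2 * (512 * P ^ 2) * (2 * m) ^ t * (u' + 2 * m * (x + t + 2) ^ 2) := hu
          _ ≤ 2 * (512 * P ^ 2) * ((2048 * P ^ 2) ^ t * D ^ t) *
              (u' + 2 * m * (x + t + 2) ^ 2) :=
            Nat.mul_le_mul_right _ (Nat.mul_le_mul_left _ c3)
          _ = D ^ t * (R * (u' + 2 * m * (x + t + 2) ^ 2)) := by rw [hR]; ring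
      exact Nat.le_of_mul_le_mul_left h4 (Nat.pow_pos (by omega))
    have c5 : P * R * 4 * (s + t + 2) ^ 2 ≤ m := by
      calc P * R * 4 * (s + t + 2) ^ 2 = 4096 * 2048 ^ t * (s + t + 2) ^ 2 * P ^ (3 + 2 * t) := by
            rw [hR, Nat.mul_pow, ← pow_mul, pow_add, pow_mul]; ring
        _ ≤ m := h3
    have c6 : 2 * R * (2 * m * (x + t + 2) ^ 2) ≤ u := by
      have h4 : P * (2 * R * (2 * m * (x + t + 2) ^ 2)) ≤ P * u := by
        calc P * (2 * R * (2 * m * (x + t + 2) ^ 2))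
            = P * R * 4 * (x + t + 2) ^ 2 * m := by ring
          _ ≤ P * R * 4 * (s + t + 2) ^ 2 * m := by
            apply Nat.mul_le_mul_right
            apply Nat.mul_le_mul_left
            exact Nat.pow_le_pow_left (by omega) 2
          _ ≤ m * m := Nat.mul_le_mul_right m c5
          _ = m ^ 2 := by ring
          _ ≤ P * u := hm
      exact Nat.le_of_mul_le_mul_left h4 (by omega)
    have c7 : u ≤ 2 * R * u' := by
      have h5 : 2 * u ≤ 2 * R * u' + 2 * R * (2 * m * (x + t + 2) ^ 2) := by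
        calc 2 * u ≤ 2 * (R * (u' + 2 * m * (x + t + 2) ^ 2)) := Nat.mul_le_mul_left 2 c4
          _ = 2 * R * u' + 2 * R * (2 * m * (x + t + 2) ^ 2) := by ring
      omega
    calc n ≤ P * u := hnu
      _ ≤ P * (2 * R * u') := Nat.mul_le_mul_left P c7
      _ = 2048 ^ (t + 1) * P ^ (3 + 2 * t) * u' := by
        rw [hR, Nat.mul_pow, ← pow_mul, pow_add, pow_mul]; ring

/-- ROW one. `K = A * L ^ B`, `Q1 = 4 * K * L`, `D1 = m / Q1`, `Q2 = 16 * Q1 ^ 2`, `D2 = m / Q2`, `K1 = 32 * Q1 ^ 2`,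
`c = 2 * (s + t) + (s + t) ^ 2 + 1`, `D = D2 - c`; `m ^ 2 ≤ K * L * U.card`, `m ≤ 2 * Q1 * D1`, `D1 ≤ 2 * (D1 - 1)`,
`m ≤ 4 * Q2 * D`, `nle`; `R = 2 * K1 * (8 * Q2) ^ t`: `U.card ≤ R * (U'.card + E)`, `2 * R * E ≤ U.card`, so
`U.card ≤ 2 * R * U'.card`. Needs `2 * Q1 ≤ m`, `2 * c * Q2 ≤ m`, `4 * K * L * R * (s + t + 2) ^ 2 ≤ m`, all of the form `A1 * L ^ B1 ≤ m`. -/
theorem one (p : ℕ → ℕ) (hp : ∀ i, 0 < i → p i < i) (t s A B : ℕ) :
    ∃ A1 B1 A2 B2 : ℕ, ∀ (V : Type) [Fintype V] (G : SimpleGraph V) (m L : ℕ), C4F G → Alp G m →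
      m ^ 2 ≤ L * Fintype.card V → A1 * L ^ B1 ≤ m → ∀ X U : Finset V, X.card ≤ s → Gen G X →
      (∀ u ∈ U, Fre G X u) → Fintype.card V ≤ A * L ^ B * U.card →
      ∃ τ : ℕ → V, ∃ U' ⊆ U, Cop G X p (t + 1) τ ∧ (∀ i, i < t + 1 → τ i ∈ U) ∧
        (∀ z ∈ U', Fre G (X ∪ (range (t + 1)).image τ) z) ∧
        (∀ z ∈ U', ∀ i, i < t + 1 → ∃ w, G.Adj (τ i) w ∧ G.Adj w z) ∧
        Fintype.card V ≤ A2 * L ^ B2 * U'.card := by
  obtain ⟨c, hc⟩ : ∃ c : ℕ, c = 2 * (s + t) + (s + t) ^ 2 + 1 := ⟨_, rfl⟩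
  refine ⟨(8 + 512 * c + 4096 * 2048 ^ t * (s + t + 2) ^ 2) * A ^ (3 + 2 * t),
    (B + 1) * (3 + 2 * t), 2048 ^ (t + 1) * A ^ (3 + 2 * t), (B + 1) * (3 + 2 * t), ?_⟩
  intro V _ G m L hG ha hmL hm X U hXs hX hU hn
  have hm1 : 1 ≤ m := alp_pos ha
  have hm2 : 1 ≤ m ^ 2 := Nat.one_le_pow _ _ hm1
  have hL : 1 ≤ L := by
    rcases Nat.eq_zero_or_pos L with h | h
    · rw [h, zero_mul] at hmL; omega
    · exact h
  have hn1 : 1 ≤ Fintype.card V := by
    rcases Nat.eq_zero_or_pos (Fintype.card V) with h | h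
    · rw [h, mul_zero] at hmL; omega
    · exact h
  have hA : 1 ≤ A := by
    rcases Nat.eq_zero_or_pos A with h | h
    · rw [h, zero_mul, zero_mul] at hn; omega
    · exact h
  obtain ⟨P, hP⟩ : ∃ P : ℕ, P = A * L ^ (B + 1) := ⟨_, rfl⟩
  have hP1 : 1 ≤ P := by rw [hP]; exact Nat.mul_pos hA (Nat.pow_pos hL)
  have hPp : P ^ (3 + 2 * t) = A ^ (3 + 2 * t) * L ^ ((B + 1) * (3 + 2 * t)) := by
    rw [hP, Nat.mul_pow, ← pow_mul]
  have hPu : Fintype.card V ≤ P * U.card := by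
    refine hn.trans ?_
    rw [hP]
    apply Nat.mul_le_mul_right
    apply Nat.mul_le_mul_left
    exact Nat.pow_le_pow_right hL (by omega)
  have hmu : m ^ 2 ≤ P * U.card := by
    calc m ^ 2 ≤ L * Fintype.card V := hmL
      _ ≤ L * (A * L ^ B * U.card) := Nat.mul_le_mul_left L hn
      _ = P * U.card := by rw [hP]; ring
  have hm' : (8 + 512 * c + 4096 * 2048 ^ t * (s + t + 2) ^ 2) * P ^ (3 + 2 * t) ≤ m := by
    rw [hPp, ← mul_assoc]; exact hm
  have hQ1 : P ≤ P ^ (3 + 2 * t) := Nat.le_self_pow (by omega) P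
  have hQ2 : P ^ 2 ≤ P ^ (3 + 2 * t) := Nat.pow_le_pow_right hP1 (by omega)
  have hm3 : 8 * P ^ (3 + 2 * t) + 512 * c * P ^ (3 + 2 * t) +
      4096 * 2048 ^ t * (s + t + 2) ^ 2 * P ^ (3 + 2 * t) ≤ m := by
    refine le_trans (le_of_eq ?_) hm'
    ring
  have e2 : 512 * c * P ^ 2 ≤ 512 * c * P ^ (3 + 2 * t) := Nat.mul_le_mul_left _ hQ2
  obtain ⟨D1, D2, D, K1, h1, h2, h3, h4, h5, h6, h7⟩ := one_num t s c P m (Fintype.card V) U.card
    hP1 (by omega) (nle hG ha) hmu hPu (by omega) (by omega) (by omega)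
  obtain ⟨τ, U', hU', hc1, hc2, hc3, hc4, hc5⟩ := onk hG ha hp hX hU (c := c) t h1 h2 h3 h4 h5 h6 (by
    have hq : (X.card + t) ^ 2 ≤ (s + t) ^ 2 := Nat.pow_le_pow_left (by omega) 2
    omega)
  refine ⟨τ, U', hU', hc1, hc2, hc3, hc4, ?_⟩
  have h8 := h7 U'.card X.card hXs hc5
  rw [hPp, ← mul_assoc] at h8
  exact h8
-- END one

/-- `k` copies, joined by paths of length two -/
structure Cfg (G : SimpleGraph V) (X : Finset V) (p : ℕ → ℕ) (t k : ℕ) (φ : ℕ → ℕ → V) : Prop where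
  inj : ∀ i j x y, i < k → j < k → x < t → y < t → φ i x = φ j y → i = j ∧ x = y
  adj : ∀ i x, i < k → 0 < x → x < t → G.Adj (φ i (p x)) (φ i x)
  far : ∀ i j x y, i < k → j < k → x < t → y < t → i ≠ j → ¬ G.Adj (φ i x) (φ j y)
  two : ∀ i j x y, i < k → j < k → x < t → y < t → i ≠ j → ∃ w, G.Adj (φ i x) w ∧ G.Adj w (φ j y)
  fre : ∀ i x, i < k → x < t → Fre G X (φ i x)
  gen : Gen G (X ∪ (range k ×ˢ range t).image fun q => φ q.1 q.2)

-- BEGIN out
/-- private helper: `τ` followed by the rows of `φ'` -/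
private def out_cons {V : Type} (τ : ℕ → V) (φ' : ℕ → ℕ → V) : ℕ → ℕ → V
  | 0 => τ
  | i + 1 => φ' i

private theorem out_step [Fintype V] {G : SimpleGraph V} {p : ℕ → ℕ} {t k : ℕ}
    {X U U' : Finset V} {τ : ℕ → V} {φ' : ℕ → ℕ → V} (hUU : U' ⊆ U)
    (hcop : Cop G X p (t + 1) τ) (hτU : ∀ i, i < t + 1 → τ i ∈ U)
    (hmid : ∀ z ∈ U', ∀ i, i < t + 1 → ∃ w, G.Adj (τ i) w ∧ G.Adj w z)
    (hcfg : Cfg G (X ∪ (range (t + 1)).image τ) p (t + 1) k φ')
    (hφU : ∀ i x, i < k → x < t + 1 → φ' i x ∈ U') :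
    Cfg G X p (t + 1) (k + 1) (out_cons τ φ') ∧
      ∀ i x, i < k + 1 → x < t + 1 → out_cons τ φ' i x ∈ U := by
  have hmem : ∀ x, x < t + 1 → τ x ∈ X ∪ (range (t + 1)).image τ := fun x hx =>
    Finset.mem_union_right _ (Finset.mem_image.2 ⟨x, Finset.mem_range.2 hx, rfl⟩)
  have hne : ∀ i x y, i < k → x < t + 1 → y < t + 1 → τ x ≠ φ' i y := by
    intro i x y hi hx hy h
    have h1 := (hcfg.fre i y hi hy).1
    rw [← h] at h1
    exact h1 (hmem x hx)
  have hfar : ∀ i x y, i < k → x < t + 1 → y < t + 1 → ¬ G.Adj (τ x) (φ' i y) := by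
    intro i x y hi hx hy
    exact (hcfg.fre i y hi hy).2.1 (τ x) (hmem x hx)
  refine ⟨⟨?_, ?_, ?_, ?_, ?_, ?_⟩, ?_⟩
  · intro i j x y hi hj hx hy h
    cases i with
    | zero =>
      cases j with
      | zero => exact ⟨rfl, hcop.inj x y hx hy h⟩
      | succ j => exact absurd h (hne j x y (by omega) hx hy)
    | succ i =>
      cases j with
      | zero => exact absurd h.symm (hne i y x (by omega) hy hx)
      | succ j =>
        obtain ⟨h1, h2⟩ := hcfg.inj i j x y (by omega) (by omega) hx hy h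
        exact ⟨by rw [h1], h2⟩
  · intro i x hi hx0 hx
    cases i with
    | zero => exact hcop.adj x hx0 hx
    | succ i => exact hcfg.adj i x (by omega) hx0 hx
  · intro i j x y hi hj hx hy hij
    cases i with
    | zero =>
      cases j with
      | zero => exact absurd rfl hij
      | succ j => exact hfar j x y (by omega) hx hy
    | succ i =>
      cases j with
      | zero => exact fun h => hfar i y x (by omega) hy hx h.symm
      | succ j =>
        exact hcfg.far i j x y (by omega) (by omega) hx hy (fun h => hij (by rw [h]))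
  · intro i j x y hi hj hx hy hij
    cases i with
    | zero =>
      cases j with
      | zero => exact absurd rfl hij
      | succ j => exact hmid (φ' j y) (hφU j y (by omega) hy) x hx
    | succ i =>
      cases j with
      | zero =>
        obtain ⟨w, h1, h2⟩ := hmid (φ' i x) (hφU i x (by omega) hx) y hy
        exact ⟨w, h2.symm, h1.symm⟩
      | succ j =>
        exact hcfg.two i j x y (by omega) (by omega) hx hy (fun h => hij (by rw [h]))
  · intro i x hi hx
    cases i with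
    | zero => exact hcop.fre x hx
    | succ i => exact fre_mono Finset.subset_union_left (hcfg.fre i x (by omega) hx)
  · have h1 : X ∪ (range (k + 1) ×ˢ range (t + 1)).image (fun q => out_cons τ φ' q.1 q.2) =
        (X ∪ (range (t + 1)).image τ) ∪
          (range k ×ˢ range (t + 1)).image (fun q => φ' q.1 q.2) := by
      rw [Finset.union_assoc]
      congr 1
      ext v
      simp only [Finset.mem_image, Finset.mem_union, Finset.mem_product, Finset.mem_range,
        Prod.exists]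
      constructor
      · rintro ⟨i, x, ⟨hi, hx⟩, rfl⟩
        cases i with
        | zero => exact Or.inl ⟨x, hx, rfl⟩
        | succ i => exact Or.inr ⟨i, x, ⟨by omega, hx⟩, rfl⟩
      · rintro (⟨x, hx, rfl⟩ | ⟨i, x, ⟨hi, hx⟩, rfl⟩)
        · exact ⟨0, x, ⟨by omega, hx⟩, rfl⟩
        · exact ⟨i + 1, x, ⟨by omega, hx⟩, rfl⟩
    rw [h1]
    exact hcfg.gen
  · intro i x hi hx
    cases i with
    | zero => exact hτU x hx
    | succ i => exact hUU (hφU i x (by omega) hx)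

/-- ROW out. Induction on `k`. Step: `one`, then the induction hypothesis for `X' = X ∪ (range (t + 1)).image τ`, `U'`,
`s + t + 1`, `A2`, `B2`; `φ 0 = τ`, `φ (i + 1) = φ' i`; constants `(A1 + A1') * L ^ (B1 + B1')` (`1 ≤ L` as `1 ≤ m ^ 2`). -/
theorem out (p : ℕ → ℕ) (hp : ∀ i, 0 < i → p i < i) (t k : ℕ) :
    ∀ s A B : ℕ, ∃ A1 B1 : ℕ, ∀ (V : Type) [Fintype V] (G : SimpleGraph V) (m L : ℕ), C4F G →
      Alp G m → m ^ 2 ≤ L * Fintype.card V → A1 * L ^ B1 ≤ m → ∀ X U : Finset V, X.card ≤ s →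
      Gen G X → (∀ u ∈ U, Fre G X u) → Fintype.card V ≤ A * L ^ B * U.card →
      ∃ φ : ℕ → ℕ → V, Cfg G X p (t + 1) k φ ∧ ∀ i x, i < k → x < t + 1 → φ i x ∈ U := by
  induction k with
  | zero =>
    intro s A B
    refine ⟨0, 0, ?_⟩
    intro V _ G m L hG hm hml _ X U hXs hXg hU hc
    have hm1 := alp_pos hm
    have hV : 0 < Fintype.card V := by
      rcases Nat.eq_zero_or_pos (Fintype.card V) with h | h
      · rw [h, mul_zero] at hml
        have h1 : 1 ≤ m ^ 2 := Nat.one_le_pow _ _ hm1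
        omega
      · exact h
    obtain ⟨v⟩ := Fintype.card_pos_iff.1 hV
    refine ⟨fun _ _ => v, ⟨?_, ?_, ?_, ?_, ?_, ?_⟩, ?_⟩
    · intro i j x y hi; exact absurd hi (Nat.not_lt_zero i)
    · intro i x hi; exact absurd hi (Nat.not_lt_zero i)
    · intro i j x y hi; exact absurd hi (Nat.not_lt_zero i)
    · intro i j x y hi; exact absurd hi (Nat.not_lt_zero i)
    · intro i x hi; exact absurd hi (Nat.not_lt_zero i)
    · have h1 : X ∪ (range 0 ×ˢ range (t + 1)).image (fun _ => v) = X := by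
        rw [Finset.range_zero, Finset.empty_product, Finset.image_empty, Finset.union_empty]
      rw [h1]
      exact hXg
    · intro i x hi; exact absurd hi (Nat.not_lt_zero i)
  | succ k ih =>
    intro s A B
    obtain ⟨A1, B1, A2, B2, h1⟩ := one p hp t s A B
    obtain ⟨A1', B1', h2⟩ := ih (s + t + 1) A2 B2
    refine ⟨A1 + A1', B1 + B1', ?_⟩
    intro V _ G m L hG hm hml hbig X U hXs hXg hU hc
    have hm1 := alp_pos hm
    have hL : 1 ≤ L := by
      rcases Nat.eq_zero_or_pos L with h | h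
      · rw [h, zero_mul] at hml
        have h1 : 1 ≤ m ^ 2 := Nat.one_le_pow _ _ hm1
        omega
      · exact h
    have hb1 : A1 * L ^ B1 ≤ m := by
      refine le_trans (Nat.mul_le_mul (Nat.le_add_right A1 A1') ?_) hbig
      exact Nat.pow_le_pow_right hL (Nat.le_add_right B1 B1')
    have hb2 : A1' * L ^ B1' ≤ m := by
      refine le_trans (Nat.mul_le_mul (Nat.le_add_left A1' A1) ?_) hbig
      exact Nat.pow_le_pow_right hL (Nat.le_add_left B1' B1)
    obtain ⟨τ, U', hUU, hcop, hτU, hfre, hmid, hc'⟩ :=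
      h1 V G m L hG hm hml hb1 X U hXs hXg hU hc
    have hXc : (X ∪ (range (t + 1)).image τ).card ≤ s + t + 1 := by
      have h3 := Finset.card_union_le X ((range (t + 1)).image τ)
      have h4 : ((range (t + 1)).image τ).card ≤ t + 1 := by
        refine le_trans Finset.card_image_le ?_
        rw [Finset.card_range]
      omega
    obtain ⟨φ', hcfg, hφU⟩ :=
      h2 V G m L hG hm hml hb2 (X ∪ (range (t + 1)).image τ) U' hXc hcop.gen hfre hc'
    exact ⟨out_cons τ φ', out_step hUU hcop hτU hmid hcfg hφU⟩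
-- END out

/-- `k` disjoint copies of `T`; any two vertices of different copies are joined by a path of length
two through a new vertex. -/
def lnk {W : Type} (T : SimpleGraph W) (k : ℕ) :
    SimpleGraph ((Fin k × W) ⊕ {q : (Fin k × W) × (Fin k × W) // q.1.1 < q.2.1}) :=
  SimpleGraph.fromRel fun a b => match a, b with
    | .inl x, .inl y => x.1 = y.1 ∧ T.Adj x.2 y.2
    | .inl x, .inr q => x = q.1.1 ∨ x = q.1.2
    | _, _ => False

-- BEGIN emb
/-- a vertex adjacent to vertices of two different copies is not in a copy -/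
private theorem emb_out {G : SimpleGraph V} {p : ℕ → ℕ} {t k : ℕ} {φ : ℕ → ℕ → V}
    (h : Cfg G ∅ p t k φ) {i j l x y z : ℕ} (hi : i < k) (hj : j < k) (hl : l < k) (hx : x < t)
    (hy : y < t) (hz : z < t) (hij : i ≠ j) (h1 : G.Adj (φ i x) (φ l z))
    (h2 : G.Adj (φ l z) (φ j y)) : False := by
  by_cases hil : i = l
  · exact h.far l j z y hl hj hz hy (by omega) h2
  · exact h.far i l x z hi hl hx hz hil h1

/-- the midpoint determines the pair -/
private theorem emb_mid {G : SimpleGraph V} {p : ℕ → ℕ} {t k : ℕ} {φ : ℕ → ℕ → V}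
    (h : Cfg G ∅ p t k φ) {i j x y i' j' x' y' : ℕ} {w : V} (hi : i < k) (hj : j < k) (hx : x < t)
    (hy : y < t) (hij : i < j) (hi' : i' < k) (hj' : j' < k) (hx' : x' < t) (hy' : y' < t)
    (hij' : i' < j') (h1 : G.Adj (φ i x) w) (h2 : G.Adj w (φ j y)) (h1' : G.Adj (φ i' x') w)
    (h2' : G.Adj w (φ j' y')) : i = i' ∧ x = x' ∧ j = j' ∧ y = y' := by
  have hmem : ∀ l z, l < k → z < t →
      φ l z ∈ (∅ ∪ (range k ×ˢ range t).image fun q => φ q.1 q.2 : Finset V) := by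
    intro l z hl hz
    rw [Finset.mem_union]
    right
    rw [Finset.mem_image]
    exact ⟨(l, z), by rw [Finset.mem_product, Finset.mem_range, Finset.mem_range]; exact ⟨hl, hz⟩,
      rfl⟩
  have hw : w ∉ (∅ ∪ (range k ×ˢ range t).image fun q => φ q.1 q.2 : Finset V) := by
    intro hw
    rw [Finset.mem_union, Finset.mem_image] at hw
    rcases hw with hw | ⟨⟨l, z⟩, hq, hw⟩
    · exact absurd hw (by simp)
    · rw [Finset.mem_product, Finset.mem_range, Finset.mem_range] at hq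
      have hw' : φ l z = w := hw
      rw [← hw'] at h1 h2
      exact emb_out h hi hj hq.1 hx hy hq.2 (by omega) h1 h2
  have hab : φ i x ≠ φ j y := by
    intro he
    have := (h.inj i j x y hi hj hx hy he).1
    omega
  have hab' : φ i' x' ≠ φ j' y' := by
    intro he
    have := (h.inj i' j' x' y' hi' hj' hx' hy' he).1
    omega
  have key : ∀ c, c ∈ (∅ ∪ (range k ×ˢ range t).image fun q => φ q.1 q.2 : Finset V) →
      G.Adj w c → c = φ i x ∨ c = φ j y := by
    intro c hc hwc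
    by_contra hcon
    rw [not_or] at hcon
    exact h.gen w (φ i x) (φ j y) c hw (hmem i x hi hx) (hmem j y hj hy) hc hab
      (Ne.symm hcon.1) (Ne.symm hcon.2) h1.symm h2 hwc
  rcases key _ (hmem i' x' hi' hx') h1'.symm with ha | ha
  · rcases key _ (hmem j' y' hj' hy') h2' with hb | hb
    · exact absurd (ha.trans hb.symm) hab'
    · have e1 := h.inj _ _ _ _ hi' hi hx' hx ha
      have e2 := h.inj _ _ _ _ hj' hj hy' hy hb
      exact ⟨e1.1.symm, e1.2.symm, e2.1.symm, e2.2.symm⟩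
  · rcases key _ (hmem j' y' hj' hy') h2' with hb | hb
    · have e1 := h.inj _ _ _ _ hi' hj hx' hy ha
      have e2 := h.inj _ _ _ _ hj' hi hy' hx hb
      omega
    · exact absurd (ha.trans hb.symm) hab'

/-- ROW emb. The midpoint `w` of `φ i x`, `φ j y` (`two`) is not of the form `φ l z` (by `far` `l = i` and `l = j`), and by
`gen` (`X = ∅`) it has no third neighbour among the `φ l z`, so the midpoints of different pairs are different. -/
theorem emb {W : Type} (T : SimpleGraph W) (k : ℕ) (G : SimpleGraph V) (p : ℕ → ℕ) (t : ℕ)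
    (e : W → ℕ) (he : Function.Injective e) (het : ∀ w, e w < t)
    (hT : ∀ x y, T.Adj x y → (0 < e y ∧ e x = p (e y)) ∨ (0 < e x ∧ e y = p (e x)))
    (φ : ℕ → ℕ → V) (h : Cfg G ∅ p t k φ) : (lnk T k).IsContained G := by
  have hex : ∀ q : {q : (Fin k × W) × (Fin k × W) // q.1.1 < q.2.1},
      ∃ w, G.Adj (φ q.1.1.1 (e q.1.1.2)) w ∧ G.Adj w (φ q.1.2.1 (e q.1.2.2)) := by
    intro q
    have hlt : (q.1.1.1 : ℕ) < q.1.2.1 := q.2
    exact h.two _ _ _ _ q.1.1.1.2 q.1.2.1.2 (het _) (het _) (by omega)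
  choose mid hmid1 hmid2 using hex
  let f : (Fin k × W) ⊕ {q : (Fin k × W) × (Fin k × W) // q.1.1 < q.2.1} → V :=
    fun a => match a with
      | .inl x => φ x.1 (e x.2)
      | .inr q => mid q
  have hTT : ∀ (i : Fin k) (x y : W), T.Adj x y → G.Adj (φ i (e x)) (φ i (e y)) := by
    intro i x y hxy
    rcases hT x y hxy with ⟨h0, h1⟩ | ⟨h0, h1⟩
    · rw [h1]
      exact h.adj i (e y) i.2 h0 (het y)
    · rw [h1]
      exact (h.adj i (e x) i.2 h0 (het x)).symm
  have hadj : ∀ a b, (lnk T k).Adj a b → G.Adj (f a) (f b) := by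
    intro a b hab
    rw [lnk, SimpleGraph.fromRel_adj] at hab
    obtain ⟨-, hab⟩ := hab
    match a, b, hab with
    | .inl x, .inl y, hab =>
      obtain ⟨i, x⟩ := x
      obtain ⟨j, y⟩ := y
      rcases hab with ⟨h1, h2⟩ | ⟨h1, h2⟩
      · have h1' : i = j := h1
        subst h1'
        exact hTT i x y h2
      · have h1' : j = i := h1
        subst h1'
        exact (hTT j y x h2).symm
    | .inl x, .inr q, hab =>
      rcases hab with hab | hab
      · rcases hab with rfl | rfl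
        · exact hmid1 q
        · exact (hmid2 q).symm
      · exact hab.elim
    | .inr q, .inl x, hab =>
      rcases hab with hab | hab
      · exact hab.elim
      · rcases hab with rfl | rfl
        · exact (hmid1 q).symm
        · exact hmid2 q
    | .inr q, .inr q', hab =>
      rcases hab with hab | hab
      · exact hab.elim
      · exact hab.elim
  have hnot : ∀ (x : Fin k × W) (q : {q : (Fin k × W) × (Fin k × W) // q.1.1 < q.2.1}),
      φ x.1 (e x.2) ≠ mid q := by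
    intro x q hxq
    have h1 := hmid1 q
    have h2 := hmid2 q
    rw [← hxq] at h1 h2
    have hlt : (q.1.1.1 : ℕ) < q.1.2.1 := q.2
    exact emb_out h q.1.1.1.2 q.1.2.1.2 x.1.2 (het _) (het _) (het _) (by omega) h1 h2
  have hinj : Function.Injective f := by
    intro a b hab
    match a, b, hab with
    | .inl x, .inl y, hab =>
      obtain ⟨i, x⟩ := x
      obtain ⟨j, y⟩ := y
      have h1 := h.inj i j (e x) (e y) i.2 j.2 (het x) (het y) hab
      have h2 : i = j := Fin.ext h1.1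
      have h3 : x = y := he h1.2
      rw [h2, h3]
    | .inl x, .inr q, hab => exact (hnot x q hab).elim
    | .inr q, .inl x, hab => exact (hnot x q hab.symm).elim
    | .inr q, .inr q', hab =>
      have hab' : mid q = mid q' := hab
      have h1 := hmid1 q
      have h2 := hmid2 q
      have h1' := hmid1 q'
      have h2' := hmid2 q'
      rw [← hab'] at h1' h2'
      have hlt : (q.1.1.1 : ℕ) < q.1.2.1 := q.2
      have hlt' : (q'.1.1.1 : ℕ) < q'.1.2.1 := q'.2
      obtain ⟨r1, r2, r3, r4⟩ := emb_mid h q.1.1.1.2 q.1.2.1.2 (het _) (het _) hlt q'.1.1.1.2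
        q'.1.2.1.2 (het _) (het _) hlt' h1 h2 h1' h2'
      have hq : q = q' := by
        apply Subtype.ext
        apply Prod.ext
        · exact Prod.ext (Fin.ext r1) (he r2)
        · exact Prod.ext (Fin.ext r3) (he r4)
      rw [hq]
  exact ⟨⟨⟨f, fun {a b} hab => hadj a b hab⟩, hinj⟩⟩
-- END emb

-- BEGIN rec
private theorem rec_aux (n : ℕ) : ∀ (W : Type) [Finite W] (T : SimpleGraph W), T.IsTree →
    Nat.card W = n + 1 → ∃ (p : ℕ → ℕ) (e : W → ℕ), (∀ i, 0 < i → p i < i) ∧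
      Function.Injective e ∧ (∀ w, e w < n + 1) ∧
      ∀ x y, T.Adj x y → (0 < e y ∧ e x = p (e y)) ∨ (0 < e x ∧ e y = p (e x)) := by
  induction n with
  | zero =>
    intro W _ T _ hW
    have hsub : Subsingleton W := (Nat.card_eq_one_iff_unique.1 (by omega)).1
    refine ⟨fun _ => 0, fun _ => 0, fun i hi => hi, fun x y _ => Subsingleton.elim x y,
      fun w => Nat.zero_lt_one, fun x y hxy => ?_⟩
    rw [Subsingleton.elim x y] at hxy
    exact absurd hxy (T.loopless.irrefl y)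
  | succ n ih =>
    intro W _ T hT hW
    have hfin : Fintype W := Fintype.ofFinite W
    have hnt : Nontrivial W := by
      have h2 : 1 < Nat.card W := by omega
      exact Finite.one_lt_card_iff_nontrivial.1 h2
    obtain ⟨v, hv⟩ := hT.exists_vert_degree_one_of_nontrivial
    obtain ⟨u, hvu, hu⟩ := SimpleGraph.degree_eq_one_iff_existsUnique_adj.1 hv
    have hT' : (T.induce ({v}ᶜ : Set W)).IsTree :=
      ⟨hT.connected.induce_compl_singleton_of_degree_eq_one hv, hT.isAcyclic.induce _⟩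
    have hc : Nat.card (({v}ᶜ : Set W) : Type) = n + 1 := by
      have h3 := Set.ncard_compl ({v} : Set W)
      rw [Set.ncard_singleton] at h3
      have h4 : Nat.card (({v}ᶜ : Set W) : Type) = ({v}ᶜ : Set W).ncard := rfl
      omega
    obtain ⟨p, e, hp, he, hlt, hadj⟩ := ih _ _ hT' hc
    have hun : u ∈ ({v}ᶜ : Set W) := fun h => hvu.ne (Set.mem_singleton_iff.1 h).symm
    obtain ⟨e', he'v, he'⟩ : ∃ e' : W → ℕ, e' v = n + 1 ∧
        ∀ (w : W) (h : w ∈ ({v}ᶜ : Set W)), e' w = e ⟨w, h⟩ := by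
      refine ⟨fun w => if h : w ∈ ({v}ᶜ : Set W) then e ⟨w, h⟩ else n + 1, ?_, ?_⟩
      · exact dif_neg fun h => h rfl
      · intro w h
        exact dif_pos h
    obtain ⟨p', hp'n, hp'⟩ : ∃ p' : ℕ → ℕ, p' (n + 1) = e ⟨u, hun⟩ ∧
        ∀ i, i ≠ n + 1 → p' i = p i := by
      refine ⟨fun i => if i = n + 1 then e ⟨u, hun⟩ else p i, if_pos rfl, fun i hi => if_neg hi⟩
    refine ⟨p', e', ?_, ?_, ?_, ?_⟩
    · intro i hi
      by_cases h : i = n + 1
      · rw [h, hp'n]
        exact hlt _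
      · rw [hp' i h]
        exact hp i hi
    · intro x y hxy
      by_cases hx : x = v <;> by_cases hy : y = v
      · rw [hx, hy]
      · rw [hx, he'v, he' y hy] at hxy
        have := hlt ⟨y, hy⟩
        omega
      · rw [hy, he'v, he' x hx] at hxy
        have := hlt ⟨x, hx⟩
        omega
      · rw [he' x hx, he' y hy] at hxy
        exact congrArg Subtype.val (he hxy)
    · intro w
      by_cases hw : w = v
      · rw [hw, he'v]
        omega
      · rw [he' w hw]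
        have := hlt ⟨w, hw⟩
        omega
    · intro x y hxy
      by_cases hx : x = v
      · have hyu : y = u := hu y (hx ▸ hxy)
        right
        rw [hx, he'v, hyu, he' u hun, hp'n]
        exact ⟨Nat.succ_pos n, rfl⟩
      · by_cases hy : y = v
        · have hxu : x = u := hu x (hy ▸ hxy.symm)
          left
          rw [hy, he'v, hxu, he' u hun, hp'n]
          exact ⟨Nat.succ_pos n, rfl⟩
        · have h5 : (T.induce ({v}ᶜ : Set W)).Adj ⟨x, hx⟩ ⟨y, hy⟩ := hxy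
          have hxn : e ⟨x, hx⟩ ≠ n + 1 := (hlt _).ne
          have hyn : e ⟨y, hy⟩ ≠ n + 1 := (hlt _).ne
          rw [he' x hx, he' y hy, hp' _ hxn, hp' _ hyn]
          exact hadj _ _ h5

/-- ROW rec. Induction on the number of vertices of the tree: `SimpleGraph.IsTree.exists_vert_degree_one_of_nontrivial`, remove
the vertex `v` of degree one (`SimpleGraph.Connected.induce_compl_singleton_of_degree_eq_one`, `IsAcyclic.induce`), `e v` is the
new number `t`, `p t` the number of the neighbour of `v` (change `p` only at `t`; for all large `i` let `p i = 0`). -/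
theorem rec_tree {W : Type} [Finite W] (T : SimpleGraph W) (hT : T.IsTree) :
    ∃ (p : ℕ → ℕ) (t : ℕ) (e : W → ℕ), (∀ i, 0 < i → p i < i) ∧ Function.Injective e ∧
      (∀ w, e w < t + 1) ∧
      ∀ x y, T.Adj x y → (0 < e y ∧ e x = p (e y)) ∨ (0 < e x ∧ e y = p (e x)) := by
  have hne : Nonempty W := hT.connected.nonempty
  have hpos : 0 < Nat.card W := Nat.card_pos
  obtain ⟨n, hn⟩ : ∃ n, Nat.card W = n + 1 := ⟨Nat.card W - 1, by omega⟩
  obtain ⟨p, e, h1, h2, h3, h4⟩ := rec_aux n W T hT hn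
  exact ⟨p, n, e, h1, h2, h3, h4⟩
-- END rec

-- BEGIN num
/-- ROW num. `L = ⌈m ^ 2 / n⌉₊`. `δ = 1 / (2 * (B1 + 1))`; `L ≤ 2 * m ^ δ` if `1 ≤ C`, so `A1 * L ^ B1 ≤ A1 * 2 ^ B1 * m ^ (1/2) ≤ m` for
`m ≥ m₀ = (A1 * 2 ^ B1) ^ 2`; for `m < m₀` `C * m ^ (2 - δ) ≤ 2 * m ^ 2` fails if `C > 2 * m₀` (`m ^ δ ≤ m`). -/
theorem num (A1 B1 : ℕ) : ∃ δ : ℝ, 0 < δ ∧ ∃ C : ℝ, ∀ n m : ℕ, 1 ≤ m → n ≤ 2 * m ^ 2 →
    C * (m : ℝ) ^ (2 - δ) ≤ n → ∃ L : ℕ, m ^ 2 ≤ L * n ∧ A1 * L ^ B1 ≤ m := by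
  have hB0 : (0 : ℝ) ≤ (B1 : ℝ) := Nat.cast_nonneg _
  have hB : (0 : ℝ) < 2 * ((B1 : ℝ) + 1) := by positivity
  obtain ⟨δ, hδ⟩ : ∃ δ : ℝ, δ = 1 / (2 * ((B1 : ℝ) + 1)) := ⟨_, rfl⟩
  obtain ⟨a, ha⟩ : ∃ a : ℝ, a = ((A1 * 2 ^ B1 : ℕ) : ℝ) := ⟨_, rfl⟩
  have ha0 : 0 ≤ a := by rw [ha]; exact Nat.cast_nonneg _
  have hδ0 : 0 < δ := by rw [hδ]; positivity
  have hδB : δ * (2 * ((B1 : ℝ) + 1)) = 1 := by rw [hδ]; exact one_div_mul_cancel hB.ne'
  have hδ2 : δ * (B1 : ℝ) ≤ 1 / 2 := by nlinarith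
  have hδ1 : δ ≤ 1 := by nlinarith [mul_nonneg hδ0.le hB0]
  refine ⟨δ, hδ0, 2 * a ^ 2 + 1, ?_⟩
  intro n m hm hn hC
  have hm1 : (1 : ℝ) ≤ m := by exact_mod_cast hm
  have hm0 : (0 : ℝ) < m := by linarith
  obtain ⟨P, hP⟩ : ∃ P : ℝ, P = (m : ℝ) ^ δ := ⟨_, rfl⟩
  obtain ⟨Q, hQ⟩ : ∃ Q : ℝ, Q = (m : ℝ) ^ (2 - δ) := ⟨_, rfl⟩
  have hP1 : 1 ≤ P := by rw [hP]; exact Real.one_le_rpow hm1 hδ0.le
  have hPm : P ≤ m := by
    rw [hP]
    calc (m : ℝ) ^ δ ≤ (m : ℝ) ^ (1 : ℝ) := Real.rpow_le_rpow_of_exponent_le hm1 hδ1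
      _ = m := Real.rpow_one _
  have hsplit : Q * P = (m : ℝ) ^ 2 := by
    rw [hP, hQ, ← Real.rpow_add hm0, sub_add_cancel]
    exact Real.rpow_two _
  have hQ0 : 0 < Q := by rw [hQ]; exact Real.rpow_pos_of_pos hm0 _
  rw [← hQ] at hC
  have hn' : (n : ℝ) ≤ 2 * (m : ℝ) ^ 2 := by exact_mod_cast hn
  have hC2 : 2 * a ^ 2 + 1 ≤ 2 * P := by
    have h1 : (2 * a ^ 2 + 1) * Q ≤ 2 * P * Q := by
      calc (2 * a ^ 2 + 1) * Q ≤ (n : ℝ) := hC
        _ ≤ 2 * (m : ℝ) ^ 2 := hn'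
        _ = 2 * P * Q := by rw [← hsplit]; ring
    exact le_of_mul_le_mul_right h1 hQ0
  have ham : a ^ 2 ≤ m := by linarith
  have hn0 : 0 < (n : ℝ) := lt_of_lt_of_le (by positivity) hC
  refine ⟨⌈(m : ℝ) ^ 2 / n⌉₊, ?_, ?_⟩
  · have h1 := Nat.le_ceil ((m : ℝ) ^ 2 / n)
    have h2 : (m : ℝ) ^ 2 ≤ (⌈(m : ℝ) ^ 2 / n⌉₊ : ℝ) * n := by rwa [div_le_iff₀ hn0] at h1
    exact_mod_cast h2
  · have hL : (⌈(m : ℝ) ^ 2 / n⌉₊ : ℝ) ≤ 2 * P := by
      have h1 : (m : ℝ) ^ 2 / n ≤ P := by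
        rw [div_le_iff₀ hn0, ← hsplit]
        have h3 : Q ≤ n := by
          refine le_trans ?_ hC
          nlinarith [mul_nonneg (sq_nonneg a) hQ0.le]
        nlinarith
      have h2 := Nat.ceil_lt_add_one (show 0 ≤ (m : ℝ) ^ 2 / n by positivity)
      linarith
    have h4 : (⌈(m : ℝ) ^ 2 / n⌉₊ : ℝ) ^ B1 ≤ (2 * P) ^ B1 :=
      pow_le_pow_left₀ (Nat.cast_nonneg _) hL _
    have h5 : P ^ B1 ≤ Real.sqrt m := by
      rw [hP, ← Real.rpow_natCast, ← Real.rpow_mul hm0.le, Real.sqrt_eq_rpow]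
      exact Real.rpow_le_rpow_of_exponent_le hm1 hδ2
    have h7 : a ≤ Real.sqrt m := Real.le_sqrt_of_sq_le ham
    have h3 : (A1 : ℝ) * (⌈(m : ℝ) ^ 2 / n⌉₊ : ℝ) ^ B1 ≤ m := by
      calc (A1 : ℝ) * (⌈(m : ℝ) ^ 2 / n⌉₊ : ℝ) ^ B1 ≤ A1 * (2 * P) ^ B1 :=
            mul_le_mul_of_nonneg_left h4 (Nat.cast_nonneg _)
        _ = a * P ^ B1 := by rw [ha, mul_pow]; push_cast; ring
        _ ≤ Real.sqrt m * Real.sqrt m :=
            mul_le_mul h7 h5 (pow_nonneg (by linarith) _) (Real.sqrt_nonneg _)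
        _ = m := Real.mul_self_sqrt hm0.le
    exact_mod_cast h3
-- END num

/-- The main theorem. -/
theorem frc {W : Type} [Finite W] (T : SimpleGraph W) (hT : T.IsTree) (k : ℕ) :
    ∃ δ : ℝ, 0 < δ ∧ ∃ C : ℝ, ∀ (V : Type) [Fintype V] (G : SimpleGraph V) (m : ℕ), 1 ≤ m →
      C * (m : ℝ) ^ (2 - δ) ≤ Fintype.card V → C4F G → ¬ (lnk T k).IsContained G →
      ∃ I : Finset V, G.IsIndepSet (I : Set V) ∧ m ≤ I.card := by
  obtain ⟨p, t, e, hp, he, het, hadj⟩ := rec_tree T hT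
  obtain ⟨A1, B1, h⟩ := out p hp t k 0 1 0
  obtain ⟨δ, hδ, C, hC⟩ := num A1 B1
  refine ⟨δ, hδ, C, fun V _ G m hm hn hG hk => ?_⟩
  by_contra hcon
  have ha : Alp G m := by
    intro I hI
    by_contra hI2
    exact hcon ⟨I, hI, not_lt.1 hI2⟩
  obtain ⟨L, h1, h2⟩ := hC (Fintype.card V) m hm (nle hG ha) hn
  obtain ⟨φ, hφ, -⟩ := h V G m L hG ha h1 h2 ∅ univ (by simp) (by intro v a b c _ h; simp at h)
    (by intro u _; refine ⟨by simp, by simp, ?_⟩; intro v a b _ h; simp at h)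
    (by rw [pow_zero, mul_one, one_mul, Finset.card_univ])
  exact hk (emb T k G p (t + 1) e he het hadj φ hφ)

end

end Pool.Agent.C4j
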