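import Pool.Agent.C4j.Tri

/-!
# The two Ramsey numbers
-/

set_option autoImplicit false

namespace Pool.Agent.C4j

open Finset Filter
open scoped Classical

noncomputable section

/-- `R(C₄, m)`: the least `k` such that every graph on `k` vertices contains `C₄` or has an independent set of `m`
vertices. -/
def rC4 (m : ℕ) : ℕ :=
  sInf {k | ∀ G : SimpleGraph (Fin k), C4F G →
    ∃ I : Finset (Fin k), G.IsIndepSet (I : Set (Fin k)) ∧ I.card = m}

/-- `R({C₃, C₄}, m)`: the least `k` such that every graph on `k` vertices contains a triangle or `C₄` or has an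
independent set of `m` vertices. -/
def rC34 (m : ℕ) : ℕ :=
  sInf {k | ∀ G : SimpleGraph (Fin k), C4F G → G.CliqueFree 3 →
    ∃ I : Finset (Fin k), G.IsIndepSet (I : Set (Fin k)) ∧ I.card = m}

theorem alp_of {V : Type} {G : SimpleGraph V} {m : ℕ}
    (h : ¬ ∃ I : Finset V, G.IsIndepSet (I : Set V) ∧ I.card = m) : Alp G m := by
  intro I hI
  by_contra hc
  obtain ⟨J, hJ, hJc⟩ := Finset.exists_subset_card_eq (not_lt.1 hc)
  exact h ⟨J, hI.mono (by exact_mod_cast hJ), hJc⟩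

theorem mem4 (m : ℕ) : 2 * m ^ 2 + 1 ∈ {k | ∀ G : SimpleGraph (Fin k), C4F G →
    ∃ I : Finset (Fin k), G.IsIndepSet (I : Set (Fin k)) ∧ I.card = m} := by
  intro G hG
  by_contra hc
  have h := nle hG (alp_of hc)
  rw [Fintype.card_fin] at h
  omega

theorem r34_le (m : ℕ) : rC34 m ≤ rC4 m := by
  have h : rC4 m ∈ {k | ∀ G : SimpleGraph (Fin k), C4F G →
    ∃ I : Finset (Fin k), G.IsIndepSet (I : Set (Fin k)) ∧ I.card = m} := Nat.sInf_mem ⟨_, mem4 m⟩
  exact Nat.sInf_le fun G hG _ => h G hG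

theorem lt_r34 {k M : ℕ} (G : SimpleGraph (Fin k)) (hG : C4F G) (hT : G.CliqueFree 3)
    (h : ¬ ∃ I : Finset (Fin k), G.IsIndepSet (I : Set (Fin k)) ∧ I.card = M) : k < rC34 M := by
  by_contra hc
  rw [not_lt] at hc
  have hmem : rC34 M ∈ {k | ∀ G : SimpleGraph (Fin k), C4F G → G.CliqueFree 3 →
    ∃ I : Finset (Fin k), G.IsIndepSet (I : Set (Fin k)) ∧ I.card = M} :=
    Nat.sInf_mem ⟨_, fun G hG _ => mem4 M G hG⟩
  obtain ⟨f, hf⟩ : ∃ f : Fin (rC34 M) ↪ Fin k, f = Fin.castLEEmb hc := ⟨_, rfl⟩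
  obtain ⟨I, hI, hIc⟩ := hmem (G.comap f) (fun u v a b h1 h2 h3 h4 h5 h6 =>
    hG (f u) (f v) (f a) (f b) (fun h => h1 (f.injective h)) (fun h => h2 (f.injective h)) h3 h4 h5 h6)
    (hT.comap ⟨(SimpleGraph.Embedding.comap f G).toCopy⟩)
  refine h ⟨I.map f, ?_, by rw [Finset.card_map]; exact hIc⟩
  intro x hx y hy hxy
  rw [Finset.mem_coe, Finset.mem_map] at hx hy
  obtain ⟨x', hx', rfl⟩ := hx
  obtain ⟨y', hy', rfl⟩ := hy
  exact hI hx' hy' (fun h => hxy (by rw [h]))

/-- The question for `C₄` is equivalent to the question for graphs of girth at least five. -/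
theorem equ : (∀ ε : ℝ, 0 < ε → ∃ᶠ m : ℕ in atTop, (m : ℝ) ^ (2 - ε) ≤ rC4 m) ↔
    ∀ ε : ℝ, 0 < ε → ∃ᶠ m : ℕ in atTop, (m : ℝ) ^ (2 - ε) ≤ rC34 m := by
  constructor
  · intro h ε hε
    obtain ⟨C, hC⟩ := trm
    obtain ⟨η, hη⟩ : ∃ η : ℝ, η = min ε 1 := ⟨_, rfl⟩
    have hη0 : 0 < η := by rw [hη]; exact lt_min hε one_pos
    have hη1 : η ≤ 1 := by rw [hη]; exact min_le_right _ _
    have hηε : η ≤ ε := by rw [hη]; exact min_le_left _ _
    have hlog : ∀ᶠ m : ℕ in atTop, (|C| + 2) * Real.log m ≤ (m : ℝ) ^ (η / 8) := by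
      have h1 := (isLittleO_log_rpow_atTop (show 0 < η / 8 by positivity)).bound
        (show 0 < (|C| + 2)⁻¹ by positivity)
      have h2 := tendsto_natCast_atTop_atTop (R := ℝ) |>.eventually h1
      filter_upwards [h2, eventually_ge_atTop 1] with m hm hm1
      have hm1' : (1 : ℝ) ≤ m := by exact_mod_cast hm1
      rw [Real.norm_of_nonneg (Real.log_nonneg hm1'), Real.norm_of_nonneg (by positivity)] at hm
      rw [inv_mul_eq_div, le_div_iff₀ (by positivity)] at hm
      linarith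
    rw [Filter.frequently_atTop]
    intro N
    obtain ⟨m, hm1, hm2, hm3⟩ := ((h (η / 4) (by positivity)).and_eventually
      (hlog.and (eventually_ge_atTop (N + 3)))).exists
    have hm0 : (0 : ℝ) < m := by
      have : 0 < m := by omega
      exact_mod_cast this
    have hmr : (3 : ℝ) ≤ m := by
      have : 3 ≤ m := by omega
      exact_mod_cast this
    have hlogm : 1 ≤ Real.log m := by
      rw [Real.le_log_iff_exp_le hm0]
      exact (Real.exp_one_lt_d9.le.trans (by norm_num)).trans hmr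
    have hr : 0 < rC4 m := by
      have h1 : (0 : ℝ) < rC4 m := lt_of_lt_of_le (by positivity) hm1
      exact_mod_cast h1
    obtain ⟨k, hk⟩ : ∃ k, rC4 m = k + 1 := ⟨rC4 m - 1, by omega⟩
    have hnot : k ∉ {k | ∀ G : SimpleGraph (Fin k), C4F G →
        ∃ I : Finset (Fin k), G.IsIndepSet (I : Set (Fin k)) ∧ I.card = m} :=
      Nat.notMem_of_lt_sInf (show k < rC4 m by omega)
    rw [Set.mem_ofPred_eq] at hnot
    push Not at hnot
    obtain ⟨G, hG, hI⟩ := hnot
    obtain ⟨G', hle, hT, hG'⟩ := hC (Fin k) G m (by omega) hG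
      (alp_of fun ⟨I, h1, h2⟩ => hI I h1 h2)
    obtain ⟨M, hM⟩ : ∃ M : ℕ, M = ⌊C * m * Real.log m⌋₊ + m := ⟨_, rfl⟩
    have hMlt : C * m * Real.log m < M := by
      rw [hM, Nat.cast_add]
      have h1 := Nat.lt_floor_add_one (C * m * Real.log m)
      linarith
    have hMle : (M : ℝ) ≤ (m : ℝ) ^ (1 + η / 8) := by
      have h1 : ((⌊C * m * Real.log m⌋₊ : ℕ) : ℝ) ≤ |C| * m * Real.log m := by
        by_cases hc : 0 ≤ C * m * Real.log m
        · refine (Nat.floor_le hc).trans ?_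
          have : C ≤ |C| := le_abs_self C
          gcongr
        · rw [Nat.floor_of_nonpos (not_le.1 hc).le, Nat.cast_zero]
          positivity
      rw [hM, Nat.cast_add, Real.rpow_add hm0, Real.rpow_one]
      have h2 : (m : ℝ) * ((|C| + 2) * Real.log m) ≤ m * (m : ℝ) ^ (η / 8) :=
        mul_le_mul_of_nonneg_left hm2 hm0.le
      nlinarith
    have hlt : k < rC34 M := by
      refine lt_r34 G' (fun u v a b h1 h2 h3 h4 h5 h6 =>
        hG u v a b h1 h2 (hle h3) (hle h4) (hle h5) (hle h6)) hT ?_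
      rintro ⟨I, h1, h2⟩
      have h3 := hG' I h1
      rw [h2] at h3
      linarith
    refine ⟨M, by omega, ?_⟩
    have hM1 : (1 : ℝ) ≤ M := by
      have : 1 ≤ M := by omega
      exact_mod_cast this
    calc (M : ℝ) ^ (2 - ε) ≤ (M : ℝ) ^ (2 - η) :=
          Real.rpow_le_rpow_of_exponent_le hM1 (by linarith)
      _ ≤ ((m : ℝ) ^ (1 + η / 8)) ^ (2 - η) :=
          Real.rpow_le_rpow (by linarith) hMle (by linarith)
      _ = (m : ℝ) ^ ((1 + η / 8) * (2 - η)) := by rw [← Real.rpow_mul hm0.le]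
      _ ≤ (m : ℝ) ^ (2 - η / 4) :=
          Real.rpow_le_rpow_of_exponent_le (by linarith) (by nlinarith)
      _ ≤ rC4 m := hm1
      _ ≤ rC34 M := by
          rw [hk]
          exact_mod_cast hlt
  · intro h ε hε
    refine (h ε hε).mono fun m hm => hm.trans ?_
    exact_mod_cast r34_le m

end

end Pool.Agent.C4j
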