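import Pool.Agent.C4j.Bas

/-!
# Deleting one edge of every triangle
-/

set_option autoImplicit false

namespace Pool.Agent.C4j

open Finset
open scoped Classical

noncomputable section

variable {V : Type}

/-- the edges of `G` inside `I` -/
def ed (G : SimpleGraph V) (I : Finset V) : Finset (Sym2 V) := I.sym2.filter fun e => e ∈ G.edgeSet

-- BEGIN edg
/-- ROW edg. `mdu` with `D = I.card / (2 * m)` (`I.card ≤ 4 * m * D`); the pairs `(v, u)`, `v ∈ S'`, `u ∈ nb G S' v`: at least
`D * S'.card`, and every edge of `ed G I` comes from at most two of them. -/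
theorem edg {G : SimpleGraph V} {m : ℕ} (hm : Alp G m) (I : Finset V) (h : 2 * m ≤ I.card) :
    I.card ^ 2 ≤ 16 * m * (ed G I).card := by
  have hm1 : 1 ≤ m := alp_pos hm
  have hm2 : 0 < 2 * m := by omega
  obtain ⟨D, hD⟩ : ∃ D, D = I.card / (2 * m) := ⟨_, rfl⟩
  have hD1 : 1 ≤ D := by
    rw [hD]
    exact (Nat.one_le_div_iff hm2).2 h
  have hD2 : 2 * m * D ≤ I.card := by
    rw [hD]
    exact Nat.mul_div_le _ _
  have hD3 : I.card < 2 * m * (D + 1) := by
    rw [hD]
    exact Nat.lt_mul_div_succ _ hm2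
  obtain ⟨S', hS, hc, hn⟩ := mdu hm D I (by nlinarith)
  have h1 : D * S'.card ≤ (S'.sigma fun v => nb G S' v).card := by
    rw [Finset.card_sigma, mul_comm]
    calc S'.card * D = ∑ _v ∈ S', D := by rw [Finset.sum_const, smul_eq_mul]
      _ ≤ ∑ v ∈ S', (nb G S' v).card := Finset.sum_le_sum hn
  have h2 : (S'.sigma fun v => nb G S' v).card ≤
      2 * ((S'.sigma fun v => nb G S' v).image fun p => s(p.1, p.2)).card := by
    refine Finset.card_le_mul_card_image _ 2 fun e he => ?_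
    obtain ⟨⟨a, b⟩, _, rfl⟩ := Finset.mem_image.1 he
    refine le_trans (Finset.card_le_card (t := {⟨a, b⟩, ⟨b, a⟩}) ?_) Finset.card_le_two
    intro x hx
    obtain ⟨_, hx2⟩ := Finset.mem_filter.1 hx
    obtain ⟨c, d⟩ := x
    simp only [Sym2.eq_iff] at hx2
    rcases hx2 with ⟨h3, h4⟩ | ⟨h3, h4⟩
    · subst h3
      subst h4
      simp
    · subst h3
      subst h4
      simp
  have h3 : ((S'.sigma fun v => nb G S' v).image fun p => s(p.1, p.2)) ⊆ ed G I := by
    intro e he
    obtain ⟨⟨a, b⟩, hab, rfl⟩ := Finset.mem_image.1 he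
    obtain ⟨ha, hb⟩ := Finset.mem_sigma.1 hab
    obtain ⟨hb1, hb2⟩ := mem_nb.1 hb
    unfold ed
    rw [Finset.mem_filter]
    exact ⟨Finset.mk_mem_sym2_iff.2 ⟨hS ha, hS hb1⟩, hb2⟩
  have h4 : D * S'.card ≤ 2 * (ed G I).card :=
    h1.trans (h2.trans (Nat.mul_le_mul_left 2 (Finset.card_le_card h3)))
  have h5 : I.card ≤ 4 * m * D := by nlinarith
  calc I.card ^ 2 = I.card * I.card := sq _
    _ ≤ (4 * m * D) * (2 * S'.card) := Nat.mul_le_mul h5 hc
    _ = 8 * m * (D * S'.card) := by ring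
    _ ≤ 8 * m * (2 * (ed G I).card) := Nat.mul_le_mul_left _ h4
    _ = 16 * m * (ed G I).card := by ring
-- END edg

variable [Fintype V]

/-- the triangles -/
def tri (G : SimpleGraph V) : Finset (Finset V) := univ.filter fun T => G.IsNClique 3 T

/-- in every triangle a vertex is chosen -/
def chs (G : SimpleGraph V) : Finset ({T // T ∈ tri G} → V) := Fintype.piFinset fun T => T.1

/-- in every triangle the edge opposite to the chosen vertex is deleted -/
def del (G : SimpleGraph V) (c : {T // T ∈ tri G} → V) : SimpleGraph V where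
  Adj x y := G.Adj x y ∧ ∀ T : {T // T ∈ tri G}, x ∈ T.1 → y ∈ T.1 → c T = x ∨ c T = y
  symm := ⟨fun _ _ h => ⟨h.1.symm, fun T hx hy => (h.2 T hy hx).symm⟩⟩
  loopless := ⟨fun x h => G.loopless.irrefl x h.1⟩

-- BEGIN dtf
/-- ROW dtf. -/
theorem dtf (G : SimpleGraph V) {c : {T // T ∈ tri G} → V} (hc : c ∈ chs G) :
    (del G c).CliqueFree 3 := by
  intro T hT
  have h1 : G.IsNClique 3 T := by
    refine ⟨?_, hT.card_eq⟩
    intro x hx y hy hxy
    exact (hT.isClique hx hy hxy).1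
  have hmem : T ∈ tri G := by
    unfold tri
    rw [Finset.mem_filter]
    exact ⟨Finset.mem_univ _, h1⟩
  have hcT : c ⟨T, hmem⟩ ∈ T := by
    unfold chs at hc
    exact Fintype.mem_piFinset.1 hc ⟨T, hmem⟩
  have h2 : 1 < (T.erase (c ⟨T, hmem⟩)).card := by
    rw [Finset.card_erase_of_mem hcT, hT.card_eq]
    norm_num
  obtain ⟨x, hx, y, hy, hxy⟩ := Finset.one_lt_card.1 h2
  have hx' := Finset.mem_erase.1 hx
  have hy' := Finset.mem_erase.1 hy
  have h3 := (hT.isClique (Finset.mem_coe.2 hx'.2) (Finset.mem_coe.2 hy'.2) hxy).2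
    ⟨T, hmem⟩ hx'.2 hy'.2
  rcases h3 with h | h
  · exact hx'.1 h.symm
  · exact hy'.1 h.symm
-- END dtf

-- BEGIN cnt
private theorem cnt_third {T : Finset V} (hT : T.card = 3) {x y : V} (hx : x ∈ T) (hy : y ∈ T)
    (hxy : x ≠ y) : ∃ z, z ≠ x ∧ z ≠ y ∧ ∀ w, w ∈ T ↔ w = x ∨ w = y ∨ w = z := by
  have h1 : ((T.erase x).erase y).card = 1 := by
    rw [card_erase_of_mem (mem_erase.2 ⟨hxy.symm, hy⟩), card_erase_of_mem hx, hT]
  obtain ⟨z, hz⟩ := card_eq_one.1 h1
  have hz1 : z ∈ (T.erase x).erase y := by rw [hz]; exact mem_singleton_self z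
  rw [mem_erase, mem_erase] at hz1
  refine ⟨z, hz1.2.1, hz1.1, fun w => ⟨fun hw => ?_, ?_⟩⟩
  · by_cases h2 : w = x
    · exact Or.inl h2
    · by_cases h3 : w = y
      · exact Or.inr (Or.inl h3)
      · have h4 : w ∈ (T.erase x).erase y := mem_erase.2 ⟨h3, mem_erase.2 ⟨h2, hw⟩⟩
        rw [hz] at h4
        exact Or.inr (Or.inr (mem_singleton.1 h4))
  · rintro (rfl | rfl | rfl)
    exacts [hx, hy, hz1.2.2]

private theorem cnt_uniq {G : SimpleGraph V} (hG : C4F G) {T T' : Finset V} (hT : T ∈ tri G)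
    (hT' : T' ∈ tri G) {x y : V} (hxy : x ≠ y) (hx : x ∈ T) (hy : y ∈ T) (hx' : x ∈ T')
    (hy' : y ∈ T') : T = T' := by
  have h1 : G.IsNClique 3 T := (mem_filter.1 hT).2
  have h2 : G.IsNClique 3 T' := (mem_filter.1 hT').2
  obtain ⟨z, hzx, hzy, hz⟩ := cnt_third h1.card_eq hx hy hxy
  obtain ⟨w, hwx, hwy, hw⟩ := cnt_third h2.card_eq hx' hy' hxy
  have hzT : z ∈ T := (hz z).2 (Or.inr (Or.inr rfl))
  have hwT : w ∈ T' := (hw w).2 (Or.inr (Or.inr rfl))
  have hzw : z = w := by
    by_contra hne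
    exact hG x y z w hxy hne (h1.isClique hx hzT hzx.symm) (h2.isClique hx' hwT hwx.symm)
      (h1.isClique hy hzT hzy.symm) (h2.isClique hy' hwT hwy.symm)
  ext v
  rw [hz v, hw v, hzw]

/-- ROW cnt. If some `c₀ ∈ chs G` makes `I` independent then every `e ∈ ed G I` lies in a triangle `T e` whose vertex opposite to
`e` is `c₀ (T e)`; by `C4F` an edge lies in at most one triangle, so every such `c` agrees with `c₀` at the `T e`, and
`T` is injective. So these `c` lie in `Fintype.piFinset fun T => if T ∈ image then {c₀ T} else T.1`, of size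
`3 ^ (number of triangles - (ed G I).card)`. -/
theorem cnt {G : SimpleGraph V} (hG : C4F G) (I : Finset V) :
    ((chs G).filter fun c => (del G c).IsIndepSet (I : Set V)).card * 3 ^ (ed G I).card ≤
      (chs G).card := by
  rcases ((chs G).filter fun c => (del G c).IsIndepSet (I : Set V)).eq_empty_or_nonempty with
    h0 | ⟨c₀, hc₀⟩
  · rw [h0, card_empty, zero_mul]
    exact Nat.zero_le _
  have h3 : ∀ T : {T // T ∈ tri G}, T.1.card = 3 := fun T => ((mem_filter.1 T.2).2).card_eq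
  have hex : ∀ c : {T // T ∈ tri G} → V, (del G c).IsIndepSet (I : Set V) → ∀ x y, x ∈ I →
      y ∈ I → G.Adj x y → ∃ T : {T // T ∈ tri G}, x ∈ T.1 ∧ y ∈ T.1 ∧ c T ≠ x ∧ c T ≠ y := by
    intro c hc x y hx hy hxy
    have h1 : ¬ (del G c).Adj x y := hc (mem_coe.2 hx) (mem_coe.2 hy) hxy.ne
    by_contra hcon
    apply h1
    refine ⟨hxy, fun T hxT hyT => ?_⟩
    by_cases h2 : c T = x
    · exact Or.inl h2
    · right
      by_contra h4
      exact hcon ⟨T, hxT, hyT, h2, h4⟩
  have hmem : ∀ e ∈ ed G I, ∀ x y, e = s(x, y) → x ∈ I ∧ y ∈ I ∧ G.Adj x y := by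
    intro e he x y hxy
    unfold ed at he
    rw [mem_filter, hxy, mk_mem_sym2_iff, SimpleGraph.mem_edgeSet] at he
    exact ⟨he.1.1, he.1.2, he.2⟩
  rw [mem_filter] at hc₀
  have hch : ∀ c ∈ chs G, ∀ T : {T // T ∈ tri G}, c T ∈ T.1 := by
    intro c hc T
    unfold chs at hc
    exact (Fintype.mem_piFinset.1 hc) T
  have hsel : ∀ e : {e // e ∈ ed G I}, ∃ T : {T // T ∈ tri G}, ∀ x y, e.1 = s(x, y) →
      x ∈ T.1 ∧ y ∈ T.1 ∧ c₀ T ≠ x ∧ c₀ T ≠ y := by
    rintro ⟨e, he⟩
    induction e using Sym2.ind with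
    | _ a b =>
      obtain ⟨ha, hb, hab⟩ := hmem _ he a b rfl
      obtain ⟨T, h1, h2, h4, h5⟩ := hex c₀ hc₀.2 a b ha hb hab
      refine ⟨T, fun x y hxy => ?_⟩
      rcases Sym2.eq_iff.1 hxy with ⟨rfl, rfl⟩ | ⟨rfl, rfl⟩
      · exact ⟨h1, h2, h4, h5⟩
      · exact ⟨h2, h1, h5, h4⟩
  choose τ hτ using hsel
  have hinj : Function.Injective τ := by
    rintro ⟨e, he⟩ ⟨e', he'⟩ hee
    apply Subtype.ext
    change e = e'
    induction e using Sym2.ind with
    | _ a b =>
    induction e' using Sym2.ind with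
    | _ a' b' =>
      obtain ⟨h1, h2, h4, h5⟩ := hτ ⟨s(a, b), he⟩ a b rfl
      obtain ⟨h1', h2', h4', h5'⟩ := hτ ⟨s(a', b'), he'⟩ a' b' rfl
      rw [← hee] at h1' h2' h4' h5'
      obtain ⟨-, -, hab⟩ := hmem _ he a b rfl
      obtain ⟨-, -, hab'⟩ := hmem _ he' a' b' rfl
      obtain ⟨z, hz1, hz2, hz⟩ := cnt_third (h3 _) h1 h2 hab.ne
      have h6 : c₀ (τ ⟨s(a, b), he⟩) = z := by
        rcases (hz _).1 (hch c₀ hc₀.1 (τ ⟨s(a, b), he⟩)) with h | h | h
        · exact absurd h h4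
        · exact absurd h h5
        · exact h
      rw [h6] at h4' h5'
      have h7 : a' = a ∨ a' = b := by
        rcases (hz _).1 h1' with h | h | h
        · exact Or.inl h
        · exact Or.inr h
        · exact absurd h.symm h4'
      have h8 : b' = a ∨ b' = b := by
        rcases (hz _).1 h2' with h | h | h
        · exact Or.inl h
        · exact Or.inr h
        · exact absurd h.symm h5'
      rw [Sym2.eq_iff]
      rcases h7 with h7 | h7 <;> rcases h8 with h8 | h8
      · exact absurd (h7.trans h8.symm) hab'.ne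
      · exact Or.inl ⟨h7.symm, h8.symm⟩
      · exact Or.inr ⟨h8.symm, h7.symm⟩
      · exact absurd (h7.trans h8.symm) hab'.ne
  set S : Finset {T // T ∈ tri G} := univ.image τ with hS
  have hScard : S.card = (ed G I).card := by
    rw [hS, card_image_of_injective _ hinj, card_univ, Fintype.card_coe]
  have hsub : ((chs G).filter fun c => (del G c).IsIndepSet (I : Set V)) ⊆
      Fintype.piFinset (fun T : {T // T ∈ tri G} => if T ∈ S then {c₀ T} else T.1) := by
    intro c hc
    rw [mem_filter] at hc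
    rw [Fintype.mem_piFinset]
    intro T
    by_cases hT : T ∈ S
    · rw [if_pos hT, mem_singleton]
      rw [hS, mem_image] at hT
      obtain ⟨⟨e, he⟩, -, rfl⟩ := hT
      induction e using Sym2.ind with
      | _ a b =>
        obtain ⟨ha, hb, hab⟩ := hmem _ he a b rfl
        obtain ⟨h1, h2, h4, h5⟩ := hτ ⟨s(a, b), he⟩ a b rfl
        obtain ⟨T', g1, g2, g4, g5⟩ := hex c hc.2 a b ha hb hab
        have h6 : T' = τ ⟨s(a, b), he⟩ :=
          Subtype.ext (cnt_uniq hG T'.2 (τ ⟨s(a, b), he⟩).2 hab.ne g1 g2 h1 h2)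
        rw [h6] at g4 g5
        obtain ⟨z, hz1, hz2, hz⟩ := cnt_third (h3 _) h1 h2 hab.ne
        have h7 : c₀ (τ ⟨s(a, b), he⟩) = z := by
          rcases (hz _).1 (hch c₀ hc₀.1 (τ ⟨s(a, b), he⟩)) with h | h | h
          · exact absurd h h4
          · exact absurd h h5
          · exact h
        have h8 : c (τ ⟨s(a, b), he⟩) = z := by
          rcases (hz _).1 (hch c hc.1 (τ ⟨s(a, b), he⟩)) with h | h | h
          · exact absurd h g4
          · exact absurd h g5
          · exact h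
        rw [h7, h8]
    · rw [if_neg hT]
      exact hch c hc.1 T
  have hcard : (Fintype.piFinset (fun T : {T // T ∈ tri G} => if T ∈ S then {c₀ T} else T.1)).card *
      3 ^ S.card = (chs G).card := by
    have h5 : (3 : ℕ) ^ S.card = ∏ T : {T // T ∈ tri G}, if T ∈ S then 3 else 1 := by
      rw [Finset.prod_ite_mem, univ_inter, prod_const]
    unfold chs
    rw [Fintype.card_piFinset, Fintype.card_piFinset, h5, ← prod_mul_distrib]
    refine prod_congr rfl fun T _ => ?_
    by_cases hT : T ∈ S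
    · rw [if_pos hT, if_pos hT, card_singleton, h3, one_mul]
    · rw [if_neg hT, if_neg hT, mul_one]
  calc ((chs G).filter fun c => (del G c).IsIndepSet (I : Set V)).card * 3 ^ (ed G I).card
      ≤ (Fintype.piFinset (fun T : {T // T ∈ tri G} => if T ∈ S then {c₀ T} else T.1)).card *
        3 ^ (ed G I).card := Nat.mul_le_mul_right _ (card_le_card hsub)
    _ = (chs G).card := by rw [← hScard, hcard]
-- END cnt

-- BEGIN unb
/-- ROW unb. Union bound over the `I ∈ powersetCard s univ` (at most `card V ^ s`): `M ≤ (ed G I).card` by `edg`; `cnt`. A set with at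
least `s` elements contains one with exactly `s`. -/
theorem unb {G : SimpleGraph V} {m : ℕ} (hG : C4F G) (hm : Alp G m) (s M : ℕ) (hs : 2 * m ≤ s)
    (hM : 16 * m * M ≤ s ^ 2) (h : Fintype.card V ^ s < 3 ^ M) :
    ∃ c ∈ chs G, ∀ I : Finset V, s ≤ I.card → ¬ (del G c).IsIndepSet (I : Set V) := by
  have hm1 : 1 ≤ m := alp_pos hm
  have hne : 0 < (chs G).card := by
    unfold chs
    rw [Fintype.card_piFinset]
    refine Finset.prod_pos fun T _ => ?_
    have hT : G.IsNClique 3 T.1 := by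
      have := T.2
      unfold tri at this
      exact (Finset.mem_filter.1 this).2
    rw [hT.card_eq]
    norm_num
  by_contra hcon
  push Not at hcon
  have hsub : chs G ⊆ (powersetCard s (univ : Finset V)).biUnion fun J =>
      (chs G).filter fun c => (del G c).IsIndepSet (J : Set V) := by
    intro c hc
    obtain ⟨I, hI, hind⟩ := hcon c hc
    obtain ⟨J, hJI, hJ⟩ := Finset.exists_subset_card_eq hI
    rw [Finset.mem_biUnion]
    refine ⟨J, Finset.mem_powersetCard.2 ⟨Finset.subset_univ _, hJ⟩, Finset.mem_filter.2 ⟨hc, ?_⟩⟩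
    exact Set.Pairwise.mono (by exact_mod_cast hJI) hind
  have h1 : (chs G).card ≤ ∑ J ∈ powersetCard s (univ : Finset V),
      ((chs G).filter fun c => (del G c).IsIndepSet (J : Set V)).card :=
    (Finset.card_le_card hsub).trans Finset.card_biUnion_le
  have h2 : ∀ J ∈ powersetCard s (univ : Finset V),
      ((chs G).filter fun c => (del G c).IsIndepSet (J : Set V)).card * 3 ^ M ≤ (chs G).card := by
    intro J hJ
    have hJc : J.card = s := (Finset.mem_powersetCard.1 hJ).2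
    have h3 := edg hm J (by rw [hJc]; exact hs)
    rw [hJc] at h3
    have h4 : M ≤ (ed G J).card := by
      have h5 : 16 * m * M ≤ 16 * m * (ed G J).card := hM.trans h3
      exact Nat.le_of_mul_le_mul_left h5 (by omega)
    exact (Nat.mul_le_mul_left _ (Nat.pow_le_pow_right (by norm_num) h4)).trans (cnt hG J)
  have h6 : (chs G).card * 3 ^ M ≤ Fintype.card V ^ s * (chs G).card := by
    calc (chs G).card * 3 ^ M ≤ (∑ J ∈ powersetCard s (univ : Finset V),
        ((chs G).filter fun c => (del G c).IsIndepSet (J : Set V)).card) * 3 ^ M :=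
          Nat.mul_le_mul_right _ h1
      _ = ∑ J ∈ powersetCard s (univ : Finset V),
        ((chs G).filter fun c => (del G c).IsIndepSet (J : Set V)).card * 3 ^ M :=
          Finset.sum_mul _ _ _
      _ ≤ ∑ J ∈ powersetCard s (univ : Finset V), (chs G).card := Finset.sum_le_sum h2
      _ = (powersetCard s (univ : Finset V)).card * (chs G).card := by
          rw [Finset.sum_const, smul_eq_mul]
      _ ≤ Fintype.card V ^ s * (chs G).card := by
          refine Nat.mul_le_mul_right _ ?_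
          rw [Finset.card_powersetCard, Finset.card_univ]
          exact Nat.choose_le_pow _ _
  have h7 : (chs G).card * 3 ^ M < 3 ^ M * (chs G).card :=
    h6.trans_lt (Nat.mul_lt_mul_of_pos_right h hne)
  rw [mul_comm] at h7
  exact lt_irrefl _ h7
-- END unb

end

-- BEGIN trm
/-- ROW trm. `ℓ = Nat.clog 3 m` (`1 ≤ ℓ`, `m ≤ 3 ^ ℓ`), `s = 64 * m * ℓ`, `M = 3 * s * ℓ + 1`; `card V ≤ 2 * m ^ 2 ≤ m ^ 3` (`nle`), so
`card V ^ s ≤ 3 ^ (3 * ℓ * s) < 3 ^ M`; `ℓ ≤ C' * log m` for `2 ≤ m`. -/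
theorem trm : ∃ C : ℝ, ∀ (V : Type) [Fintype V] (G : SimpleGraph V) (m : ℕ), 2 ≤ m → C4F G →
    Alp G m → ∃ G' : SimpleGraph V, G' ≤ G ∧ G'.CliqueFree 3 ∧
      ∀ I : Finset V, G'.IsIndepSet (I : Set V) → (I.card : ℝ) ≤ C * m * Real.log m := by
  have hlog2 : 0 < Real.log 2 := Real.log_pos (by norm_num)
  have hlog3 : 0 < Real.log 3 := Real.log_pos (by norm_num)
  refine ⟨64 * (1 / Real.log 3 + 1 / Real.log 2), fun V _ G m hm hG ha => ?_⟩
  obtain ⟨l, hl⟩ : ∃ l : ℕ, l = Nat.clog 3 m := ⟨_, rfl⟩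
  have hl1 : 1 ≤ l := by rw [hl]; exact Nat.clog_pos (by norm_num) hm
  have hml : m ≤ 3 ^ l := by rw [hl]; exact Nat.le_pow_clog (by norm_num) m
  obtain ⟨s, hs⟩ : ∃ s : ℕ, s = 64 * m * l := ⟨_, rfl⟩
  have hm2 : (2 : ℝ) ≤ m := by exact_mod_cast hm
  have hm0 : (0 : ℝ) < m := by linarith
  have hlm : Real.log 2 ≤ Real.log m := Real.log_le_log (by norm_num) hm2
  have hllog : (l : ℝ) ≤ (1 / Real.log 3 + 1 / Real.log 2) * Real.log m := by
    have h1 : 3 ^ (l - 1) < m := by
      rw [hl]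
      exact Nat.pow_pred_clog_lt_self (by norm_num) hm
    have h2 : ((l - 1 : ℕ) : ℝ) * Real.log 3 ≤ Real.log m := by
      have h3 : ((3 : ℝ) ^ (l - 1)) ≤ m := by exact_mod_cast h1.le
      have h4 := Real.log_le_log (by positivity) h3
      rwa [Real.log_pow] at h4
    rw [Nat.cast_sub hl1, Nat.cast_one] at h2
    have h3 : ((l : ℝ) - 1) ≤ 1 / Real.log 3 * Real.log m := by
      rw [one_div, inv_mul_eq_div, le_div_iff₀ hlog3]
      exact h2
    have h4 : 1 ≤ 1 / Real.log 2 * Real.log m := by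
      rw [one_div, inv_mul_eq_div, le_div_iff₀ hlog2]
      linarith
    linarith
  have hsl : 1 ≤ l * s := by
    rw [hs]
    exact Nat.mul_pos hl1 (Nat.mul_pos (by omega) hl1)
  have hn : Fintype.card V ≤ 3 ^ (3 * l) := by
    calc Fintype.card V ≤ 2 * m ^ 2 := nle hG ha
      _ ≤ m * m ^ 2 := Nat.mul_le_mul_right _ hm
      _ = m ^ 3 := by ring
      _ ≤ (3 ^ l) ^ 3 := Nat.pow_le_pow_left hml 3
      _ = 3 ^ (3 * l) := by rw [← pow_mul]; congr 1; ring
  obtain ⟨c, hc, hI⟩ := unb hG ha s (3 * s * l + 1) (by rw [hs]; nlinarith) (by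
      have h1 : 16 * m * (3 * s * l + 1) ≤ 16 * m * (4 * (l * s)) := by
        apply Nat.mul_le_mul_left
        nlinarith
      refine h1.trans (le_of_eq ?_)
      rw [sq]
      conv_rhs => rw [hs]
      rw [hs]; ring) (by
      calc Fintype.card V ^ s ≤ (3 ^ (3 * l)) ^ s := Nat.pow_le_pow_left hn s
        _ = 3 ^ (3 * s * l) := by rw [← pow_mul]; congr 1; ring
        _ < 3 ^ (3 * s * l + 1) := Nat.pow_lt_pow_right (by norm_num) (by omega))
  refine ⟨del G c, fun x y h => h.1, dtf G hc, fun I hI2 => ?_⟩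
  have h1 : I.card < s := by
    by_contra h
    exact hI I (not_lt.1 h) hI2
  have h2 : (I.card : ℝ) ≤ 64 * m * l := by
    have h3 : I.card ≤ 64 * m * l := by rw [← hs]; exact h1.le
    exact_mod_cast h3
  calc (I.card : ℝ) ≤ 64 * m * l := h2
    _ ≤ 64 * m * ((1 / Real.log 3 + 1 / Real.log 2) * Real.log m) :=
      mul_le_mul_of_nonneg_left hllog (by positivity)
    _ = 64 * (1 / Real.log 3 + 1 / Real.log 2) * m * Real.log m := by ring
-- END trm

end Pool.Agent.C4j
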